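import Pool.Agent.Helper94.Area.Thm

open MeasureTheory Complex Metric Set Filter Topology
open Pool.Agent.Helper94.Area

namespace Pool.Agent.Helper94.Supp

/-- the point of the circle of radius one half -/
noncomputable def zt (θ : ℝ) : ℂ := ((1/2:ℝ):ℂ) * exp (θ * I)

theorem zt_norm (θ : ℝ) : ‖zt θ‖ = 1/2 := by
  rw [zt, norm_mul, Complex.norm_exp_ofReal_mul_I, Complex.norm_real, mul_one,
    Real.norm_eq_abs, abs_of_pos (by norm_num)]

theorem zt_mem (θ : ℝ) : zt θ ∈ ball (0:ℂ) 1 := by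
  rw [mem_ball_zero_iff, zt_norm]; norm_num

theorem zt_ne (θ : ℝ) : zt θ ≠ 0 := by
  rw [← norm_pos_iff, zt_norm]; norm_num

theorem continuous_zt : Continuous zt := by unfold zt; fun_prop

/-- the kernel -/
noncomputable def wt (c0 : ℕ → ℂ) (i : ℕ) : ℂ :=
  (2 * (i:ℂ) + 1) * (starRingEnd ℂ) (c0 (i + 1)) * 2 ^ (i + 1)

noncomputable def Bk (c0 : ℕ → ℂ) (θ : ℝ) : ℂ :=
  ∑' i : ℕ, wt c0 i * exp (-(((i + 1 : ℕ):ℂ) * θ * I))

noncomputable def Lam (c0 : ℕ → ℂ) (G : ℂ → ℂ) : ℂ :=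
  (2 * Real.pi : ℂ)⁻¹ * ∫ θ in (-Real.pi)..Real.pi, Bk c0 θ * G (zt θ)

theorem continuous_Bk {c0 : ℕ → ℂ} (hw : Summable (fun i => ‖wt c0 i‖)) :
    Continuous (Bk c0) := by
  unfold Bk
  refine continuous_tsum (fun i => by fun_prop) hw (fun i θ => ?_)
  rw [norm_mul, Complex.norm_exp]
  simp

theorem Lam_hasSum {c0 : ℕ → ℂ} (hw : Summable (fun i => ‖wt c0 i‖)) {G : ℂ → ℂ}
    (hG : DifferentiableOn ℂ G (ball 0 1)) :
    HasSum (fun i : ℕ => (2 * (i:ℂ) + 1) * (starRingEnd ℂ) (c0 (i + 1)) * tc G (i + 1))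
      (Lam c0 G) := by
  have hGc : Continuous (fun θ : ℝ => G (zt θ)) :=
    hG.continuousOn.comp_continuous continuous_zt zt_mem
  obtain ⟨M, hM⟩ : ∃ M, ∀ θ ∈ uIcc (-Real.pi) Real.pi, ‖G (zt θ)‖ ≤ M :=
    isCompact_uIcc.exists_bound_of_continuousOn hGc.continuousOn
  have hsG := summable_norm_of_hasSum (fun z hz => tc_hasSum hG hz) (t := 1/2) (by norm_num)
    (by norm_num)
  have hu : ∀ θ : ℝ, HasSum (fun n : ℕ => (tc G n * ((1/2:ℝ):ℂ) ^ n) * exp ((n:ℂ) * θ * I))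
      (G (zt θ)) := by
    intro θ
    refine hs_congr (fun n => ?_) (tc_hasSum hG (zt_mem θ))
    rw [zt, mul_pow, ← Complex.exp_nat_mul]
    ring_nf
  have hce := coeff_extract hsG hu
  -- swap
  let e : ℕ → C(ℝ, ℂ) := fun i =>
    ⟨fun θ => wt c0 i * exp (-(((i + 1 : ℕ):ℂ) * θ * I)) * G (zt θ),
      Continuous.mul (by fun_prop) hGc⟩
  have hs : Summable fun i : ℕ =>
      ‖(e i).restrict (⟨uIcc (-Real.pi) Real.pi, isCompact_uIcc⟩ : TopologicalSpace.Compacts ℝ)‖ := by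
    refine Summable.of_nonneg_of_le (fun _ => norm_nonneg _) (fun i => ?_) (hw.mul_right (max M 0))
    rw [ContinuousMap.norm_le _ (by positivity)]
    intro x
    change ‖wt c0 i * exp (-(((i + 1 : ℕ):ℂ) * ((x:ℝ):ℂ) * I)) * G (zt x)‖ ≤ _
    rw [norm_mul, norm_mul, Complex.norm_exp]
    have h1 := hM x x.2
    have h2 : ‖G (zt x)‖ ≤ max M 0 := h1.trans (le_max_left _ _)
    simp only [neg_re, mul_re, mul_im, natCast_re, natCast_im, ofReal_re, ofReal_im, I_re, I_im]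
    simp
    gcongr
  have hI := intervalIntegral.hasSum_intervalIntegral_of_summable_norm hs
  have h1 : ∀ θ : ℝ, ∑' n, e n θ = Bk c0 θ * G (zt θ) := by
    intro θ
    change ∑' i, wt c0 i * exp (-(((i + 1 : ℕ):ℂ) * θ * I)) * G (zt θ) = _
    rw [tsum_mul_right]
    rfl
  simp_rw [h1] at hI
  have h2 : ∀ i : ℕ, (∫ θ in (-Real.pi)..Real.pi, e i θ)
      = 2 * Real.pi * ((2 * (i:ℂ) + 1) * (starRingEnd ℂ) (c0 (i + 1)) * tc G (i + 1)) := by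
    intro i
    have h3 : ∀ θ : ℝ, e i θ = wt c0 i * (exp (-(((i + 1 : ℕ):ℂ) * θ * I)) * G (zt θ)) := by
      intro θ
      change wt c0 i * exp (-(((i + 1 : ℕ):ℂ) * θ * I)) * G (zt θ) = _
      ring
    simp_rw [h3]
    rw [intervalIntegral.integral_const_mul, hce (i + 1), wt]
    have h4 : (2:ℂ) ^ (i + 1) * ((1/2:ℝ):ℂ) ^ (i + 1) = 1 := by
      rw [← mul_pow]; norm_num
    linear_combination (2 * (i:ℂ) + 1) * (starRingEnd ℂ) (c0 (i + 1)) * (2 * Real.pi)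
      * tc G (i + 1) * h4
  simp_rw [h2] at hI
  have hpi : (2 * Real.pi : ℂ) ≠ 0 := by simp [Real.pi_ne_zero]
  have h5 := hI.mul_left (2 * Real.pi : ℂ)⁻¹
  refine hs_congr (fun n => ?_) h5
  rw [← mul_assoc, inv_mul_cancel₀ hpi, one_mul]

theorem cauchy_half {G : ℂ → ℂ} (hG : DifferentiableOn ℂ G (ball 0 1)) {M : ℝ}
    (hM : ∀ θ : ℝ, ‖G (zt θ)‖ ≤ M) (n : ℕ) : ‖tc G n‖ ≤ M * 2 ^ n := by
  have hsG := summable_norm_of_hasSum (fun z hz => tc_hasSum hG hz) (t := 1/2) (by norm_num)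
    (by norm_num)
  have hu : ∀ θ : ℝ, HasSum (fun n : ℕ => (tc G n * ((1/2:ℝ):ℂ) ^ n) * exp ((n:ℂ) * θ * I))
      (G (zt θ)) := by
    intro θ
    refine hs_congr (fun n => ?_) (tc_hasSum hG (zt_mem θ))
    rw [zt, mul_pow, ← Complex.exp_nat_mul]
    ring_nf
  have hce := coeff_extract hsG hu n
  have h1 : ‖∫ θ in (-Real.pi)..Real.pi, exp (-((n:ℂ) * θ * I)) * G (zt θ)‖
      ≤ M * |Real.pi - (-Real.pi)| := by
    refine intervalIntegral.norm_integral_le_of_norm_le_const (fun θ _ => ?_)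
    rw [norm_mul, Complex.norm_exp]
    have := hM θ
    simpa using this
  rw [hce, norm_mul, norm_mul (tc G n), norm_pow] at h1
  have h2 : ‖(2 * Real.pi : ℂ)‖ = 2 * Real.pi := by
    rw [norm_mul, Complex.norm_real, Real.norm_eq_abs, abs_of_pos Real.pi_pos]; simp
  have h3 : ‖((1/2:ℝ):ℂ)‖ = 1/2 := by
    rw [Complex.norm_real, Real.norm_eq_abs, abs_of_pos (by norm_num)]
  rw [h2, h3, abs_of_pos (by linarith [Real.pi_pos])] at h1
  have h4 : ‖tc G n‖ * (1/2:ℝ) ^ n ≤ M := by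
    have : 2 * Real.pi * (‖tc G n‖ * (1/2:ℝ) ^ n) ≤ 2 * Real.pi * M := by linarith
    exact le_of_mul_le_mul_left this (by positivity)
  have h5 : (1/2:ℝ) ^ n * 2 ^ n = 1 := by rw [← mul_pow]; norm_num
  calc ‖tc G n‖ = ‖tc G n‖ * (1/2:ℝ) ^ n * 2 ^ n := by rw [mul_assoc, h5, mul_one]
    _ ≤ M * 2 ^ n := by gcongr

/-- bound on |G| at |z| = 1/2 by the l2 norm of the coefficients, G 0 = 0 -/
theorem sup_half {G : ℂ → ℂ} (hG : DifferentiableOn ℂ G (ball 0 1)) (hG0 : G 0 = 0) {N : ℝ}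
    (hN : ∀ n, ∑ i ∈ Finset.range n, ‖tc G (i + 1)‖ ^ 2 ≤ N) (θ : ℝ) :
    ‖G (zt θ)‖ ^ 2 ≤ N / 3 := by
  have h1 := tc_hasSum hG (zt_mem θ)
  have h2 := (hasSum_nat_add_iff' 1).mpr h1
  simp only [Finset.range_one, Finset.sum_singleton, pow_zero, mul_one, tc_zero, hG0, sub_zero] at h2
  have h3 := (h2.tendsto_sum_nat).norm.pow 2
  refine le_of_tendsto h3 (Eventually.of_forall (fun n => ?_))
  have hN0 : 0 ≤ N := by simpa using hN 0
  have h4 : ‖∑ i ∈ Finset.range n, tc G (i + 1) * zt θ ^ (i + 1)‖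
      ≤ ∑ i ∈ Finset.range n, ‖tc G (i + 1)‖ * (1/2:ℝ) ^ (i + 1) := by
    refine (norm_sum_le _ _).trans (le_of_eq (Finset.sum_congr rfl (fun i _ => ?_)))
    rw [norm_mul, norm_pow, zt_norm]
  have h5 := Finset.sum_mul_sq_le_sq_mul_sq (Finset.range n) (fun i => ‖tc G (i + 1)‖)
    (fun i => (1/2:ℝ) ^ (i + 1))
  have h6 : ∑ i ∈ Finset.range n, ((1/2:ℝ) ^ (i + 1)) ^ 2 ≤ 1/3 := by
    have : ∀ i : ℕ, ((1/2:ℝ) ^ (i + 1)) ^ 2 = (1/4) * (1/4) ^ i := by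
      intro i
      rw [← pow_mul, mul_comm (i+1) 2, pow_mul]
      norm_num
      ring
    simp_rw [this, ← Finset.mul_sum]
    rw [geom_sum_eq (by norm_num)]
    have : (0:ℝ) ≤ (1/4) ^ n := by positivity
    have h7 : ((1/4:ℝ) ^ n - 1) / (1/4 - 1) = (4/3) * (1 - (1/4) ^ n) := by ring
    rw [h7]
    linarith
  calc ‖∑ i ∈ Finset.range n, tc G (i + 1) * zt θ ^ (i + 1)‖ ^ 2
      ≤ (∑ i ∈ Finset.range n, ‖tc G (i + 1)‖ * (1/2:ℝ) ^ (i + 1)) ^ 2 := by gcongr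
    _ ≤ (∑ i ∈ Finset.range n, ‖tc G (i + 1)‖ ^ 2) *
        ∑ i ∈ Finset.range n, ((1/2:ℝ) ^ (i + 1)) ^ 2 := h5
    _ ≤ N * (1/3) := by
        gcongr
        exact hN n
    _ = N / 3 := by ring

end Pool.Agent.Helper94.Supp
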