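import Pool.Agent.Helper94.Supp.NonMono

open Complex Metric Set Filter Topology

namespace Pool.Agent.Helper94.Supp

/-- derivatives of two parametrisations differ by a positive factor -/
theorem reparam_deriv {f : HD} {w₁ w₂ : ℝ → ℂ} (h₁ : OmittedArc f w₁)
    (h₂ : OmittedArc f w₂) {φ : NNReal → NNReal} (hc : Continuous φ) (hm : StrictMono φ)
    (hw : ∀ x : NNReal, w₁ x = w₂ (φ x)) (x : NNReal) :
    ∃ c : ℝ, 0 < c ∧ deriv w₁ x = (c : ℂ) * deriv w₂ (φ x) := by
  have d1 : HasDerivAt w₁ (deriv w₁ x) x := (h₁.analytic x x.2).differentiableAt.hasDerivAt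
  have d2 : HasDerivAt w₂ (deriv w₂ (φ x)) (φ x) :=
    (h₂.analytic (φ x) (φ x).2).differentiableAt.hasDerivAt
  have n1 := h₁.regular x x.2
  have n2 := h₂.regular (φ x) (φ x).2
  -- the parameter x + 1/(n+1)
  set u : ℕ → NNReal := fun n => x + 1 / ((n : NNReal) + 1) with hu
  have hupos : ∀ n, x < u n := by
    intro n
    have : (0:NNReal) < 1 / ((n : NNReal) + 1) := by positivity
    exact lt_add_of_pos_right x this
  have hulim : Tendsto u atTop (𝓝 x) := by
    have h1 : Tendsto (fun n : ℕ => 1 / ((n : NNReal) + 1)) atTop (𝓝 0) :=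
      tendsto_one_div_add_atTop_nhds_zero_nat
    have := h1.const_add x
    rw [add_zero] at this
    exact this
  have hulimR : Tendsto (fun n => ((u n : NNReal) : ℝ)) atTop (𝓝[≠] (x:ℝ)) := by
    refine tendsto_nhdsWithin_iff.mpr ⟨(NNReal.continuous_coe.tendsto x).comp hulim, ?_⟩
    refine Eventually.of_forall (fun n => ?_)
    have : (x:ℝ) < u n := by exact_mod_cast hupos n
    exact this.ne'
  have hφlim : Tendsto (fun n => ((φ (u n) : NNReal) : ℝ)) atTop (𝓝[≠] (φ x:ℝ)) := by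
    refine tendsto_nhdsWithin_iff.mpr
      ⟨(NNReal.continuous_coe.tendsto (φ x)).comp ((hc.tendsto x).comp hulim), ?_⟩
    refine Eventually.of_forall (fun n => ?_)
    have : (φ x:ℝ) < φ (u n) := by exact_mod_cast hm (hupos n)
    exact this.ne'
  have s1 := (hasDerivAt_iff_tendsto_slope.mp d1).comp hulimR
  have s2 := (hasDerivAt_iff_tendsto_slope.mp d2).comp hφlim
  have hq := s1.div s2 n2
  -- the quotient of slopes is a positive real
  have hval : ∀ n, (slope w₁ x (u n : ℝ)) / (slope w₂ (φ x) (φ (u n) : ℝ))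
      = ((((φ (u n) : ℝ) - φ x) / ((u n : ℝ) - x) : ℝ) : ℂ) := by
    intro n
    have a1 : (0:ℝ) < (u n : ℝ) - x := by
      have : (x:ℝ) < u n := by exact_mod_cast hupos n
      linarith
    have a2 : (0:ℝ) < (φ (u n) : ℝ) - φ x := by
      have : (φ x:ℝ) < φ (u n) := by exact_mod_cast hm (hupos n)
      linarith
    have a3 : w₂ (φ (u n)) - w₂ (φ x) ≠ 0 := by
      intro h
      have h3 : w₂ (φ (u n)) = w₂ (φ x) := by linear_combination h
      have h4 : (φ (u n) : ℝ) = φ x := h₂.injective (φ (u n)).2 (φ x).2 h3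
      rw [h4, sub_self] at a2
      exact lt_irrefl _ a2
    rw [slope_def_module, slope_def_module, hw, hw]
    simp only [Complex.real_smul]
    have b1 : (((u n : ℝ) - x : ℝ) : ℂ) ≠ 0 := by exact_mod_cast a1.ne'
    have b2 : (((φ (u n) : ℝ) - φ x : ℝ) : ℂ) ≠ 0 := by exact_mod_cast a2.ne'
    rw [Complex.ofReal_inv, Complex.ofReal_inv, Complex.ofReal_div]
    field_simp
  have hq2 : Tendsto (fun n => ((((φ (u n) : ℝ) - φ x) / ((u n : ℝ) - x) : ℝ) : ℂ)) atTop
      (𝓝 (deriv w₁ x / deriv w₂ (φ x))) := by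
    refine hq.congr (fun n => ?_)
    exact hval n
  set c : ℂ := deriv w₁ x / deriv w₂ (φ x) with hcdef
  have him : c.im = 0 := by
    have h1 := (Complex.continuous_im.tendsto c).comp hq2
    have h2 : (Complex.im ∘ fun n => ((((φ (u n) : ℝ) - φ x) / ((u n : ℝ) - x) : ℝ) : ℂ))
        = fun _ => (0:ℝ) := by
      ext n; simp only [Function.comp_apply, Complex.ofReal_im]
    rw [h2] at h1
    exact (tendsto_nhds_unique h1 tendsto_const_nhds)
  have hre : 0 ≤ c.re := by
    have h1 := (Complex.continuous_re.tendsto c).comp hq2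
    refine ge_of_tendsto h1 (Eventually.of_forall (fun n => ?_))
    simp only [Function.comp_apply, Complex.ofReal_re]
    have a1 : (x:ℝ) < u n := by exact_mod_cast hupos n
    have a2 : (φ x:ℝ) < φ (u n) := by exact_mod_cast hm (hupos n)
    exact div_nonneg (by linarith) (by linarith)
  have hcne : c ≠ 0 := div_ne_zero n1 n2
  have hce : c = (c.re : ℂ) := by
    apply Complex.ext
    · simp
    · simp [him]
  have hre' : 0 < c.re := by
    refine lt_of_le_of_ne hre (fun h => ?_)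
    apply hcne
    rw [hce, ← h]; simp
  refine ⟨c.re, hre', ?_⟩
  rw [← hce, hcdef, div_mul_cancel₀ _ n2]

theorem MonotonicAngle.transfer {f : HD} {w₁ w₂ : ℝ → ℂ} (h₁ : OmittedArc f w₁)
    (h₂ : OmittedArc f w₂) (h : MonotonicAngle w₂) : MonotonicAngle w₁ := by
  obtain ⟨φ, hc, hm, _, hw⟩ := h₁.reparam h₂
  obtain ⟨α, hαc, hα, hαm⟩ := h
  refine ⟨fun t => α (φ t.toNNReal), ?_, ?_, ?_⟩
  · refine hαc.comp ?_ (fun t _ => (φ t.toNNReal).2)
    exact (NNReal.continuous_coe.comp (hc.comp continuous_real_toNNReal)).continuousOn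
  · intro t ht
    have h1 := hw t.toNNReal
    obtain ⟨c, hc0, hcd⟩ := reparam_deriv h₁ h₂ hc hm hw t.toNNReal
    rw [Real.coe_toNNReal t ht] at h1 hcd
    have h3 := hα _ (φ t.toNNReal).2
    rw [hcd, h1, mul_div_assoc, norm_mul, Complex.norm_real, Real.norm_eq_abs, abs_of_pos hc0]
    push_cast
    rw [mul_assoc]
    exact congrArg (fun z => (c:ℂ) * z) h3
  · have hmono : ∀ s t : ℝ, s ≤ t → (φ s.toNNReal : ℝ) ≤ φ t.toNNReal := fun s t hst =>
      NNReal.coe_le_coe.mpr (hm.monotone (Real.toNNReal_le_toNNReal hst))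
    rcases hαm with h | h
    · left
      intro s _ t _ hst
      exact h (φ s.toNNReal).2 (φ t.toNNReal).2 (hmono s t hst)
    · right
      intro s _ t _ hst
      exact h (φ s.toNNReal).2 (φ t.toNNReal).2 (hmono s t hst)

/-- a nondecreasing angle with values off the imaginary axis that tends to the positive direction
stays below it -/
theorem angle_sign {q : ℝ → ℂ} {α : ℝ → ℝ} (hc : ContinuousOn α (Ici 0))
    (hq : ∀ t ∈ Ici (0:ℝ), q t = (‖q t‖ : ℂ) * exp ((α t : ℂ) * I))
    (hre : ∀ t ∈ Ici (0:ℝ), 0 < (q t).re)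
    (hlim : Tendsto (fun t => (q t).im / ‖q t‖) atTop (𝓝 0))
    (hm : MonotoneOn α (Ici 0)) : ∀ t ∈ Ici (0:ℝ), (q t).im ≤ 0 := by
  intro t₁ ht₁
  by_contra hcon
  push Not at hcon
  have hn : ∀ t ∈ Ici (0:ℝ), 0 < ‖q t‖ := by
    intro t ht
    rw [norm_pos_iff]
    intro h
    have := hre t ht
    rw [h] at this
    simp at this
  have hcos : ∀ t ∈ Ici (0:ℝ), (q t).re = ‖q t‖ * Real.cos (α t) := by
    intro t ht
    have h := congrArg Complex.re (hq t ht)
    rw [Complex.re_ofReal_mul, Complex.exp_ofReal_mul_I_re] at h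
    exact h
  have hsin : ∀ t ∈ Ici (0:ℝ), (q t).im = ‖q t‖ * Real.sin (α t) := by
    intro t ht
    have h := congrArg Complex.im (hq t ht)
    rw [Complex.im_ofReal_mul, Complex.exp_ofReal_mul_I_im] at h
    exact h
  set A := Complex.arg (q t₁) with hA
  have hA0 : 0 < A := by
    have h1 : 0 ≤ A := Complex.arg_nonneg_iff.mpr hcon.le
    refine lt_of_le_of_ne h1 (fun h => ?_)
    have h2 := (Complex.arg_eq_zero_iff).mp h.symm
    linarith [h2.2]
  have hA1 : A < Real.pi / 2 := by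
    have h1 : |A| < Real.pi / 2 := Complex.abs_arg_lt_pi_div_two_iff.mpr (Or.inl (hre t₁ ht₁))
    exact (abs_lt.mp h1).2
  have hcosA : Real.cos (α t₁) = Real.cos A := by
    have h1 := hcos t₁ ht₁
    have h2 := Complex.norm_mul_cos_arg (q t₁)
    have h3 := (hn t₁ ht₁).ne'
    have : ‖q t₁‖ * Real.cos (α t₁) = ‖q t₁‖ * Real.cos A := by rw [← h1, hA, h2]
    exact mul_left_cancel₀ h3 this
  have hsinA : Real.sin (α t₁) = Real.sin A := by
    have h1 := hsin t₁ ht₁
    have h2 := Complex.norm_mul_sin_arg (q t₁)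
    have h3 := (hn t₁ ht₁).ne'
    have : ‖q t₁‖ * Real.sin (α t₁) = ‖q t₁‖ * Real.sin A := by rw [← h1, hA, h2]
    exact mul_left_cancel₀ h3 this
  set β : ℝ → ℝ := fun t => α t - α t₁ + A with hβ
  have hcosβ : ∀ t, Real.cos (β t) = Real.cos (α t) := by
    intro t
    simp only [hβ]
    rw [Real.cos_add, Real.cos_sub, Real.sin_sub, ← hcosA, ← hsinA]
    have := Real.sin_sq_add_cos_sq (α t₁)
    linear_combination (Real.cos (α t)) * this
  have hsinβ : ∀ t, Real.sin (β t) = Real.sin (α t) := by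
    intro t
    simp only [hβ]
    rw [Real.sin_add, Real.cos_sub, Real.sin_sub, ← hcosA, ← hsinA]
    have := Real.sin_sq_add_cos_sq (α t₁)
    linear_combination (Real.sin (α t)) * this
  have hβ1 : β t₁ = A := by simp [hβ]
  have ht₁' : (0:ℝ) ≤ t₁ := ht₁
  have hge : ∀ t, t₁ ≤ t → A ≤ β t := by
    intro t ht
    have := hm ht₁ (Set.mem_Ici.mpr (ht₁'.trans ht)) ht
    simp only [hβ]
    linarith
  have hlt : ∀ t, t₁ ≤ t → β t < Real.pi / 2 := by
    intro t ht
    by_contra h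
    push Not at h
    have hcI : ContinuousOn β (Icc t₁ t) :=
      ((hc.mono (fun s hs => Set.mem_Ici.mpr (ht₁'.trans hs.1))).sub continuousOn_const).add
        continuousOn_const
    have hmem : Real.pi / 2 ∈ Icc (β t₁) (β t) := ⟨by rw [hβ1]; exact hA1.le, h⟩
    obtain ⟨s, hs, hs'⟩ := intermediate_value_Icc ht hcI hmem
    have hs0 : s ∈ Ici (0:ℝ) := Set.mem_Ici.mpr (ht₁'.trans hs.1)
    have h1 := hre s hs0
    rw [hcos s hs0, ← hcosβ s, hs', Real.cos_pi_div_two, mul_zero] at h1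
    exact lt_irrefl _ h1
  have hbound : ∀ᶠ t in atTop, Real.sin A ≤ (q t).im / ‖q t‖ := by
    filter_upwards [eventually_ge_atTop t₁] with t ht
    have ht0 : t ∈ Ici (0:ℝ) := Set.mem_Ici.mpr (ht₁'.trans ht)
    rw [hsin t ht0, mul_div_cancel_left₀ _ (hn t ht0).ne', ← hsinβ t]
    exact Real.sin_le_sin_of_le_of_le_pi_div_two (by linarith) (hlt t ht).le (hge t ht)
  have h0 := ge_of_tendsto hlim hbound
  have hsinpos : 0 < Real.sin A := Real.sin_pos_of_pos_of_lt_pi hA0 (by linarith [Real.pi_pos])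
  linarith

theorem angle_sign' {q : ℝ → ℂ} {α : ℝ → ℝ} (hc : ContinuousOn α (Ici 0))
    (hq : ∀ t ∈ Ici (0:ℝ), q t = (‖q t‖ : ℂ) * exp ((α t : ℂ) * I))
    (hre : ∀ t ∈ Ici (0:ℝ), 0 < (q t).re)
    (hlim : Tendsto (fun t => (q t).im / ‖q t‖) atTop (𝓝 0))
    (hm : AntitoneOn α (Ici 0)) : ∀ t ∈ Ici (0:ℝ), 0 ≤ (q t).im := by
  have h := angle_sign (q := fun t => (starRingEnd ℂ) (q t)) (α := fun t => -α t) hc.neg ?_ ?_ ?_
    hm.neg
  · intro t ht
    have := h t ht
    simp at this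
    exact this
  · intro t ht
    rw [RCLike.norm_conj]
    conv_lhs => rw [hq t ht]
    rw [map_mul, Complex.conj_ofReal, ← Complex.exp_conj, map_mul, Complex.conj_ofReal,
      Complex.conj_I]
    congr 2
    push_cast; ring
  · intro t ht
    simpa using hre t ht
  · have := hlim.neg
    simp only [neg_zero] at this
    refine this.congr (fun t => ?_)
    rw [RCLike.norm_conj, Complex.conj_im, neg_div]

end Pool.Agent.Helper94.Supp
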