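import Pool.Agent.Helper94.Supp.Angle

open Complex Metric Set Filter Topology

namespace Pool.Agent.Helper94.Supp

/-- the logarithmic derivative of the arc -/
noncomputable def qq (t : ℝ) : ℂ := deriv wArc t / wArc t

theorem SC_sub_ne {σ : ℝ} (h1 : -1 ≤ σ) (h2 : σ < 1) : SC σ - σ * aa ≠ 0 := by
  intro h
  have habs : |σ| ≤ 2 := by rw [abs_le]; constructor <;> linarith
  apply YC_ne_one h1 h2
  rw [YC, sub_eq_zero, div_eq_one_iff_eq (SC_ne habs)]
  linear_combination -h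

theorem qq_eq {t : ℝ} (ht : 0 ≤ t) : qq t = ((2 / (t + 1) ^ 2 : ℝ) : ℂ) *
    (aa / (DC (((t - 1) / (t + 1) : ℝ) : ℂ) * (SC (((t - 1) / (t + 1) : ℝ) : ℂ)
      - (((t - 1) / (t + 1) : ℝ) : ℂ) * aa))) := by
  obtain ⟨h1, h2⟩ := sig_mem ht
  have habs := sig_abs ht
  rw [qq, (wArc_hasDeriv ht).deriv, wArc, WC]
  set σ : ℝ := (t - 1) / (t + 1) with hσ
  have e1 := SC_ne habs
  have e2 := pp_ne
  have e3 := YC_ne_one h1 h2
  have e4 := SC_sub_ne h1 h2
  have e5 := Complex.I_ne_zero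
  have e6 : DC (σ:ℂ) = SC (σ:ℂ) ^ 2 := (SC_sq _).symm
  have e7 : YC (σ:ℂ) - 1 = -(SC σ - σ * aa) / SC σ := by
    rw [YC]; field_simp; ring
  rw [e6]
  have e8 : (-(aa / SC (σ:ℂ) ^ 3) / (2 * I * pp * (YC (σ:ℂ) - 1) ^ 2)) *
      ((2 / (t + 1) ^ 2 : ℝ) : ℂ) / (1 / (2 * I * pp * (YC (σ:ℂ) - 1)))
      = ((2 / (t + 1) ^ 2 : ℝ) : ℂ) * (-(aa / SC (σ:ℂ) ^ 3) / (YC (σ:ℂ) - 1)) := by
    field_simp
  rw [e8, e7]
  congr 1
  field_simp

theorem SC_bounds {σ : ℝ} (h : |σ| ≤ 1) : 9/10 ≤ (SC σ).re ∧ (SC σ).re ≤ 11/10 ∧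
    |(SC σ).im| ≤ 1/1000 := by
  have h2 : |σ| ≤ 2 := by linarith
  have hpos := SC_re_pos h2
  have hsq := SC_sq (σ:ℂ)
  have hre := congrArg Complex.re hsq
  have him := congrArg Complex.im hsq
  rw [DC_re, pow_two, Complex.mul_re] at hre
  rw [DC_im, pow_two, Complex.mul_im] at him
  have hσ2 : σ ^ 2 ≤ 1 := by rw [← sq_abs]; nlinarith [abs_nonneg σ]
  have hσ0 := sq_nonneg σ
  have hs : ss = 1/1000000 := rfl
  set x := (SC (σ:ℂ)).re
  set y := (SC (σ:ℂ)).im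
  rw [hs] at hre him
  have hx1 : 9/10 ≤ x := by
    by_contra hc
    push Not at hc
    nlinarith [sq_nonneg y]
  have hy : |y| ≤ 1/1000 := by
    rw [abs_le]
    constructor
    · by_contra hc
      push Not at hc
      nlinarith
    · by_contra hc
      push Not at hc
      nlinarith
  refine ⟨hx1, ?_, hy⟩
  have hy2 : y * y ≤ 1/1000 := by
    have := abs_le.mp hy
    nlinarith [abs_nonneg y, sq_abs y]
  by_contra hc
  push Not at hc
  nlinarith

theorem DC_bounds {σ : ℝ} (h : |σ| ≤ 1) : 9/10 ≤ (DC σ).re ∧ (DC σ).re ≤ 1 ∧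
    |(DC σ).im| ≤ 1/1000 := by
  have hσ2 : σ ^ 2 ≤ 1 := by rw [← sq_abs]; nlinarith [abs_nonneg σ]
  have hσ0 := sq_nonneg σ
  have hs : ss = 1/1000000 := rfl
  rw [DC_re, DC_im, hs]
  refine ⟨by nlinarith, by nlinarith, ?_⟩
  rw [abs_le]
  constructor <;> nlinarith

/-- product of three numbers close to the positive axis -/
theorem triple_re_pos {x y z : ℂ} (hx : 9/10 ≤ x.re) (hx' : x.re ≤ 3) (hxi : |x.im| ≤ 1/100)
    (hy : 9/10 ≤ y.re) (hy' : y.re ≤ 3) (hyi : |y.im| ≤ 1/100)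
    (hz : 9/10 ≤ z.re) (hz' : z.re ≤ 3) (hzi : |z.im| ≤ 1/100) : 0 < (x * y * z).re := by
  have e : (x * y * z).re = x.re * y.re * z.re - x.im * y.im * z.re - x.re * y.im * z.im
      - x.im * y.re * z.im := by
    simp only [Complex.mul_re, Complex.mul_im]; ring
  rw [e]
  have a1 : 81/100 ≤ x.re * y.re := by nlinarith
  have a2 : 729/1000 ≤ x.re * y.re * z.re := by nlinarith
  have b1 : |x.im * y.im * z.re| ≤ 1/100 * (1/100) * 3 := by
    rw [abs_mul, abs_mul]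
    have : |z.re| ≤ 3 := by rw [abs_le]; constructor <;> linarith
    gcongr
  have b2 : |x.re * y.im * z.im| ≤ 3 * (1/100) * (1/100) := by
    rw [abs_mul, abs_mul]
    have : |x.re| ≤ 3 := by rw [abs_le]; constructor <;> linarith
    gcongr
  have b3 : |x.im * y.re * z.im| ≤ 1/100 * 3 * (1/100) := by
    rw [abs_mul, abs_mul]
    have : |y.re| ≤ 3 := by rw [abs_le]; constructor <;> linarith
    gcongr
  have c1 := abs_le.mp b1
  have c2 := abs_le.mp b2
  have c3 := abs_le.mp b3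
  linarith [c1.2, c2.2, c3.2]

theorem re_div_pos {x y : ℂ} (hy : y ≠ 0) (h : 0 < (x * (starRingEnd ℂ) y).re) :
    0 < (x / y).re := by
  have h1 : x / y = (x * (starRingEnd ℂ) y) * (((Complex.normSq y)⁻¹ : ℝ) : ℂ) := by
    rw [div_eq_mul_inv, Complex.inv_def]
    ring
  rw [h1, Complex.re_mul_ofReal]
  exact mul_pos h (inv_pos.mpr (Complex.normSq_pos.mpr hy))

theorem XX_bounds {σ : ℝ} (h : |σ| ≤ 1) : 9/10 ≤ (SC σ + |σ| * aa).re ∧
    (SC σ + |σ| * aa).re ≤ 3 ∧ |(SC σ + |σ| * aa).im| ≤ 1/100 := by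
  obtain ⟨a1, a2, a3⟩ := SC_bounds h
  have hs : ss = 1/1000000 := rfl
  rw [Complex.add_re, Complex.add_im, Complex.re_ofReal_mul, Complex.im_ofReal_mul, aa_re, aa_im]
  have hn := abs_nonneg σ
  refine ⟨by linarith, by linarith, ?_⟩
  have b := abs_le.mp a3
  rw [abs_le, hs]
  constructor <;> nlinarith

theorem SC_factor {σ : ℝ} : (SC σ - σ * aa) * (SC σ + σ * aa) = 1 - (σ:ℂ) ^ 2 := by
  have := SC_sq (σ:ℂ)
  have hDe : DC (σ:ℂ) = 1 + (aa ^ 2 - 1) * (σ:ℂ) ^ 2 := rfl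
  linear_combination this + hDe

theorem GG_eq {σ : ℝ} (h0 : 0 ≤ σ) (h1 : σ < 1) :
    aa / (DC σ * (SC σ - σ * aa)) = (((1 - σ ^ 2)⁻¹ : ℝ) : ℂ) *
      (aa * (SC σ + σ * aa) / DC σ) := by
  have habs : |σ| ≤ 2 := by rw [abs_of_nonneg h0]; linarith
  have e1 := DC_ne habs
  have e2 := SC_sub_ne (by linarith) h1
  have e3 := SC_factor (σ := σ)
  have e4 : (1:ℂ) - (σ:ℂ) ^ 2 ≠ 0 := by
    have : (1:ℝ) - σ ^ 2 ≠ 0 := by nlinarith
    exact_mod_cast this
  have e5 : SC (σ:ℂ) + (σ:ℂ) * aa ≠ 0 := by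
    intro h
    rw [h, mul_zero] at e3
    exact e4 e3.symm
  push_cast
  rw [← e3]
  generalize SC (σ:ℂ) - (σ:ℂ) * aa = X at *
  generalize SC (σ:ℂ) + (σ:ℂ) * aa = Z at *
  field_simp

theorem qq_re_pos {t : ℝ} (ht : 0 ≤ t) : 0 < (qq t).re := by
  obtain ⟨h1, h2⟩ := sig_mem ht
  rw [qq_eq ht, Complex.re_ofReal_mul]
  have hc : 0 < 2 / (t + 1) ^ 2 := by positivity
  refine mul_pos hc ?_
  set σ : ℝ := (t - 1) / (t + 1) with hσ
  have habs1 : |σ| ≤ 1 := by rw [abs_le]; constructor <;> linarith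
  have habs : |σ| ≤ 2 := by linarith
  obtain ⟨d1, d2, d3⟩ := DC_bounds habs1
  obtain ⟨x1, x2, x3⟩ := XX_bounds habs1
  have hs : ss = 1/1000000 := rfl
  have ai : |aa.im| ≤ 1/100 := by
    rw [aa_im, hs, abs_neg, abs_of_pos (by norm_num)]; norm_num
  have ar : 9/10 ≤ aa.re := by rw [aa_re]; norm_num
  have ar' : aa.re ≤ 3 := by rw [aa_re]; norm_num
  rcases le_or_gt σ 0 with hneg | hpos
  · have e : SC (σ:ℂ) - (σ:ℂ) * aa = SC σ + |σ| * aa := by
      rw [abs_of_nonpos hneg]; push_cast; ring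
    rw [e]
    refine re_div_pos ?_ ?_
    · refine mul_ne_zero (DC_ne habs) ?_
      intro h
      rw [h] at x1
      norm_num at x1
    · rw [map_mul, ← mul_assoc]
      refine triple_re_pos ar ar' ai ?_ ?_ ?_ ?_ ?_ ?_
      · simpa using d1
      · rw [Complex.conj_re]; linarith
      · rw [Complex.conj_im, abs_neg]; linarith
      · rw [Complex.conj_re]; exact x1
      · rw [Complex.conj_re]; exact x2
      · rw [Complex.conj_im, abs_neg]; exact x3
  · rw [GG_eq hpos.le h2, Complex.re_ofReal_mul]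
    have hp : 0 < (1 - σ ^ 2)⁻¹ := inv_pos.mpr (by nlinarith)
    refine mul_pos hp ?_
    rw [abs_of_pos hpos] at x1 x2 x3
    refine re_div_pos (DC_ne habs) ?_
    refine triple_re_pos ar ar' ai x1 x2 x3 ?_ ?_ ?_
    · rw [Complex.conj_re]; exact d1
    · rw [Complex.conj_re]; linarith
    · rw [Complex.conj_im, abs_neg]; linarith

theorem sig_tendsto : Tendsto (fun t : ℝ => (t - 1) / (t + 1)) atTop (𝓝 1) := by
  have h1 : Tendsto (fun t : ℝ => 1 - 2 / (t + 1)) atTop (𝓝 (1 - 0)) := by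
    refine tendsto_const_nhds.sub ?_
    exact Tendsto.div_atTop tendsto_const_nhds (tendsto_atTop_add_const_right _ 1 tendsto_id)
  rw [sub_zero] at h1
  refine h1.congr' ?_
  filter_upwards [eventually_ge_atTop 0] with t ht
  have : t + 1 ≠ 0 := by linarith
  field_simp
  ring

theorem qq_lim : Tendsto (fun t => (qq t).im / ‖qq t‖) atTop (𝓝 0) := by
  set G : ℝ → ℂ := fun σ => aa * (SC σ + σ * aa) / DC σ with hG
  have hDc : ContinuousAt (fun σ : ℝ => DC σ) 1 := by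
    unfold DC; fun_prop
  have hSc : ContinuousAt (fun σ : ℝ => SC σ) 1 := by
    have h1 : ContinuousAt (fun x : ℂ => x ^ (1/2:ℂ)) (DC ((1:ℝ):ℂ)) :=
      continuousAt_cpow_const (DC_slit (by norm_num))
    exact ContinuousAt.comp (f := fun σ : ℝ => DC σ) (x := (1:ℝ)) h1 hDc
  have hGc : ContinuousAt G 1 := by
    refine ContinuousAt.div (continuousAt_const.mul (hSc.add ?_)) hDc (DC_ne (by norm_num))
    fun_prop
  have hG1 : G 1 = 2 := by
    simp only [hG]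
    rw [Complex.ofReal_one, SC_one, ← SC_sq 1, SC_one]
    have := aa_ne
    field_simp
    ring
  have hlimG : Tendsto (fun t : ℝ => G ((t - 1) / (t + 1))) atTop (𝓝 2) := by
    have := hGc.tendsto.comp sig_tendsto
    rwa [hG1] at this
  have h1 : Tendsto (fun t : ℝ => (G ((t - 1) / (t + 1))).im / ‖G ((t - 1) / (t + 1))‖) atTop
      (𝓝 ((2:ℂ).im / ‖(2:ℂ)‖)) :=
    ((Complex.continuous_im.tendsto _).comp hlimG).div hlimG.norm (by simp)
  have h2 : (2:ℂ).im / ‖(2:ℂ)‖ = 0 := by simp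
  rw [h2] at h1
  refine h1.congr' ?_
  filter_upwards [eventually_ge_atTop 1] with t ht
  obtain ⟨m1, m2⟩ := sig_mem (show (0:ℝ) ≤ t by linarith)
  have hσ0 : 0 ≤ (t - 1) / (t + 1) := div_nonneg (by linarith) (by linarith)
  rw [qq_eq (by linarith), GG_eq hσ0 m2, ← mul_assoc, ← Complex.ofReal_mul]
  set c : ℝ := 2 / (t + 1) ^ 2 * (1 - ((t - 1) / (t + 1)) ^ 2)⁻¹ with hc
  have hcpos : 0 < c := by
    refine mul_pos (by positivity) (inv_pos.mpr (by nlinarith))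
  rw [Complex.im_ofReal_mul, norm_mul, Complex.norm_real, Real.norm_eq_abs, abs_of_pos hcpos]
  rw [mul_div_mul_left _ _ hcpos.ne']

theorem one_sub_YC_slit {t : ℝ} (h0 : 0 ≤ t) :
    1 - YC (((t - 1) / (t + 1) : ℝ) : ℂ) ∈ slitPlane := by
  obtain ⟨m1, m2⟩ := sig_mem h0
  have habs := sig_abs h0
  set σ : ℝ := (t - 1) / (t + 1) with hσ
  by_contra hcon
  rw [Complex.mem_slitPlane_iff] at hcon
  push Not at hcon
  obtain ⟨hre, him⟩ := hcon
  have him' : (YC (σ:ℂ)).im = 0 := by simpa using him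
  have hre' : 1 ≤ (YC (σ:ℂ)).re := by
    simp only [Complex.sub_re, Complex.one_re] at hre
    linarith
  rcases YC_real habs him' with h | h
  · rw [h] at hre'
    simp [YC] at hre'
    linarith
  · have h6 : σ = -1 := by nlinarith
    rw [h6] at hre'
    push_cast at hre'
    rw [YC_neg_one] at hre'
    norm_num at hre'

noncomputable def argF (t : ℝ) : ℝ := (Complex.log (1 - YC (((t - 1) / (t + 1) : ℝ) : ℂ))).im

theorem argF_deriv {t : ℝ} (ht : 0 ≤ t) : HasDerivAt argF (-(qq t).im) t := by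
  obtain ⟨m1, m2⟩ := sig_mem ht
  have habs := sig_abs ht
  have h3 := (YC_hasDeriv (DC_slit habs)).comp_ofReal
  have h4' := h3.scomp t (sig_deriv ht)
  have h4 : HasDerivAt (fun t : ℝ => YC (((t - 1) / (t + 1) : ℝ) : ℂ))
    ((2 / (t + 1) ^ 2) • (aa / SC (((t - 1) / (t + 1) : ℝ) : ℂ) ^ 3)) t := h4'
  have h5 := (h4.const_sub 1).clog_real (one_sub_YC_slit ht)
  have h6 := (Complex.imCLM.hasFDerivAt.comp_hasDerivAt t h5)
  refine (show HasDerivAt argF _ t from h6).congr_deriv ?_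
  rw [qq, (wArc_hasDeriv ht).deriv, wArc, WC]
  set σ : ℝ := (t - 1) / (t + 1) with hσ
  have e1 := SC_ne habs
  have e2 := pp_ne
  have e3 := YC_ne_one m1 m2
  have e5 := Complex.I_ne_zero
  have e6 : 1 - YC (σ:ℂ) ≠ 0 := by
    intro h; apply e3; linear_combination -h
  rw [Complex.imCLM_apply, ← Complex.neg_im]
  congr 1
  rw [Complex.real_smul]
  have e7 : YC (σ:ℂ) - 1 = -(1 - YC (σ:ℂ)) := by ring
  rw [e7]
  field_simp

theorem argF_zero : argF 0 = 0 := by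
  rw [argF]
  have : (((0:ℝ) - 1) / (0 + 1) : ℝ) = -1 := by norm_num
  rw [this]
  push_cast
  rw [YC_neg_one, Complex.log_im]
  have : (1:ℂ) - -1 = ((2:ℝ):ℂ) := by push_cast; ring
  rw [this]
  exact Complex.arg_ofReal_of_nonneg (by norm_num)

theorem argF_one : argF 1 = 0 := by
  rw [argF]
  have : (((1:ℝ) - 1) / (1 + 1) : ℝ) = 0 := by norm_num
  rw [this]
  have : YC ((0:ℝ):ℂ) = 0 := by simp [YC]
  rw [this]
  simp

theorem argF_third : argF (1/3) ≠ 0 := by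
  rw [argF, Complex.log_im]
  have e : (((1/3:ℝ) - 1) / (1/3 + 1) : ℝ) = -(1/2) := by norm_num
  rw [e]
  intro h
  have h1 := (Complex.arg_eq_zero_iff.mp h).2
  have him : (YC ((-(1/2) : ℝ) : ℂ)).im = 0 := by simpa using h1
  rcases YC_real (σ := -(1/2)) (by rw [abs_le]; constructor <;> norm_num) him with h | h
  · norm_num at h
  · norm_num at h

theorem wArc_not_monotonicAngle : ¬ MonotonicAngle wArc := by
  rintro ⟨α, hc, hα, hm⟩
  have hre : ∀ t ∈ Ici (0:ℝ), 0 < (qq t).re := fun t ht => qq_re_pos ht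
  have hcont : ContinuousOn argF (Icc 0 1) := fun t ht =>
    (argF_deriv ht.1).continuousAt.continuousWithinAt
  have hint : ∀ t ∈ interior (Icc (0:ℝ) 1), HasDerivWithinAt argF (-(qq t).im)
      (interior (Icc (0:ℝ) 1)) t := by
    intro t ht
    have : t ∈ Icc (0:ℝ) 1 := interior_subset ht
    exact (argF_deriv this.1).hasDerivWithinAt
  have m0 : (0:ℝ) ∈ Icc (0:ℝ) 1 := ⟨le_rfl, zero_le_one⟩
  have m1 : (1:ℝ) ∈ Icc (0:ℝ) 1 := ⟨zero_le_one, le_rfl⟩
  have m3 : (1/3:ℝ) ∈ Icc (0:ℝ) 1 := ⟨by norm_num, by norm_num⟩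
  rcases hm with hm | hm
  · have hs := angle_sign (q := qq) hc hα hre qq_lim hm
    have hmono : MonotoneOn argF (Icc 0 1) := by
      refine monotoneOn_of_hasDerivWithinAt_nonneg (convex_Icc 0 1) hcont hint (fun t ht => ?_)
      have : t ∈ Icc (0:ℝ) 1 := interior_subset ht
      have := hs t (Set.mem_Ici.mpr this.1)
      linarith
    have a := hmono m0 m3 (by norm_num)
    have b := hmono m3 m1 (by norm_num)
    rw [argF_zero] at a
    rw [argF_one] at b
    exact argF_third (le_antisymm b a)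
  · have hs := angle_sign' (q := qq) hc hα hre qq_lim hm
    have hmono : AntitoneOn argF (Icc 0 1) := by
      refine antitoneOn_of_hasDerivWithinAt_nonpos (convex_Icc 0 1) hcont hint (fun t ht => ?_)
      have : t ∈ Icc (0:ℝ) 1 := interior_subset ht
      have := hs t (Set.mem_Ici.mpr this.1)
      linarith
    have a := hmono m0 m3 (by norm_num)
    have b := hmono m3 m1 (by norm_num)
    rw [argF_zero] at a
    rw [argF_one] at b
    exact argF_third (le_antisymm a b)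

theorem q2_main : ∃ f : HD, IsSupportPoint f ∧ (∃ w, OmittedArc f w) ∧
    ∀ w, OmittedArc f w → ¬ MonotonicAngle w :=
  ⟨fHD, fHD_isSupportPoint, ⟨wArc, wArc_omitted⟩, fun _ hw h =>
    wArc_not_monotonicAngle (h.transfer wArc_omitted hw)⟩

end Pool.Agent.Helper94.Supp
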