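import Pool.Agent.Helper94.Supp.Geom

open MeasureTheory Complex Metric Set Filter Topology
open Pool.Agent.Helper94.Area

namespace Pool.Agent.Helper94.Supp

theorem sqrt_re_pos {x : ℂ} (hx : x ∈ slitPlane) : 0 < (x ^ (1/2 : ℂ)).re := by
  have hx0 := Complex.slitPlane_ne_zero hx
  rw [Complex.cpow_def_of_ne_zero hx0, Complex.exp_re]
  refine mul_pos (Real.exp_pos _) ?_
  have h1 : (Complex.log x * (1/2)).im = x.arg / 2 := by
    have : Complex.log x * (1/2) = Complex.log x * ((1/2:ℝ):ℂ) := by push_cast; ring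
    rw [this, Complex.im_mul_ofReal, Complex.log_im]; ring
  rw [h1]
  have h2 := Complex.neg_pi_lt_arg x
  have h3 := Complex.arg_le_pi x
  have h4 : x.arg ≠ Real.pi := Complex.slitPlane_arg_ne_pi hx
  have h5 : x.arg < Real.pi := lt_of_le_of_ne h3 h4
  exact Real.cos_pos_of_mem_Ioo ⟨by linarith, by linarith⟩

theorem sqrt_sq' (x : ℂ) : (x ^ (1/2 : ℂ)) ^ 2 = x := by
  rw [← Complex.cpow_nat_mul]
  have : ((2:ℕ):ℂ) * (1/2) = 1 := by push_cast; ring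
  rw [this, Complex.cpow_one]

noncomputable def DC (x : ℂ) : ℂ := 1 + (aa ^ 2 - 1) * x ^ 2
noncomputable def SC (x : ℂ) : ℂ := DC x ^ (1/2 : ℂ)
noncomputable def YC (x : ℂ) : ℂ := x * aa / SC x
noncomputable def WC (x : ℂ) : ℂ := 1 / (2 * I * pp * (YC x - 1))
noncomputable def wArc (t : ℝ) : ℂ := WC (((t - 1) / (t + 1) : ℝ) : ℂ)

theorem aa_sq : aa ^ 2 - 1 = -(ss ^ 2 : ℝ) - (2 * ss : ℝ) * I := by
  rw [aa]
  push_cast
  have hI : I ^ 2 = -1 := Complex.I_sq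
  linear_combination (ss:ℂ) ^ 2 * hI

theorem DC_re (σ : ℝ) : (DC σ).re = 1 - ss ^ 2 * σ ^ 2 := by
  rw [DC, aa_sq]
  simp [pow_two]
  ring

theorem DC_im (σ : ℝ) : (DC σ).im = -2 * ss * σ ^ 2 := by
  rw [DC, aa_sq]
  simp [pow_two]

theorem DC_re_pos {σ : ℝ} (h : |σ| ≤ 2) : 0 < (DC σ).re := by
  rw [DC_re]
  have h1 : σ ^ 2 ≤ 4 := by rw [← sq_abs]; nlinarith [abs_nonneg σ]
  have h2 : ss ^ 2 ≤ 1/8 := by unfold ss; norm_num
  nlinarith [sq_nonneg σ, sq_nonneg ss]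

theorem DC_slit {σ : ℝ} (h : |σ| ≤ 2) : DC σ ∈ slitPlane := Or.inl (DC_re_pos h)

theorem SC_sq (x : ℂ) : SC x ^ 2 = DC x := sqrt_sq' _

theorem SC_re_pos {σ : ℝ} (h : |σ| ≤ 2) : 0 < (SC σ).re := sqrt_re_pos (DC_slit h)

theorem SC_ne {σ : ℝ} (h : |σ| ≤ 2) : SC σ ≠ 0 := by
  intro h1
  have := SC_re_pos h
  rw [h1] at this
  simp at this

theorem DC_ne {σ : ℝ} (h : |σ| ≤ 2) : DC σ ≠ 0 := Complex.slitPlane_ne_zero (DC_slit h)

theorem SC_one : SC 1 = aa := by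
  refine eq_of_sq_eq_of_re ?_ ?_ ?_
  · have := SC_re_pos (σ := 1) (by norm_num)
    simpa using this
  · rw [aa_re]; norm_num
  · rw [SC_sq, DC]; ring

theorem SC_even (x : ℂ) : SC (-x) = SC x := by
  rw [SC, SC, DC, DC, neg_sq]

theorem YC_one : YC 1 = 1 := by
  rw [YC, SC_one, one_mul, div_self aa_ne]

theorem YC_odd (x : ℂ) : YC (-x) = -YC x := by
  rw [YC, YC, SC_even]; ring

theorem YC_neg_one : YC (-1) = -1 := by rw [YC_odd, YC_one]

theorem YC_sq (x : ℂ) : YC x ^ 2 = x ^ 2 * aa ^ 2 / DC x := by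
  rw [YC, div_pow, SC_sq, mul_pow]

theorem YC_ne_one {σ : ℝ} (h1 : -1 ≤ σ) (h2 : σ < 1) : YC σ - 1 ≠ 0 := by
  intro h
  have h3 : YC σ = 1 := by linear_combination h
  have habs : |σ| ≤ 2 := by rw [abs_le]; constructor <;> linarith
  have hD := DC_ne habs
  have h4 := YC_sq σ
  rw [h3, eq_div_iff hD, DC] at h4
  have h5 : ((σ ^ 2 : ℝ) : ℂ) = ((1:ℝ):ℂ) := by push_cast; linear_combination -h4
  have h6 : σ ^ 2 = 1 := Complex.ofReal_injective h5
  have h7 : σ = -1 := by nlinarith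
  rw [h7] at h3
  push_cast at h3
  rw [YC_neg_one] at h3
  norm_num at h3

theorem YC_hasDeriv {x : ℂ} (hx : DC x ∈ slitPlane) :
    HasDerivAt YC (aa / SC x ^ 3) x := by
  have hD0 := Complex.slitPlane_ne_zero hx
  have h1 : HasDerivAt DC ((aa ^ 2 - 1) * (2 * x)) x := by
    have := ((hasDerivAt_pow 2 x).const_mul (aa ^ 2 - 1)).const_add 1
    refine (show HasDerivAt DC _ x from this).congr_deriv ?_
    push_cast; ring
  have h2 : HasDerivAt SC ((1/2) * DC x ^ ((1/2 : ℂ) - 1) * ((aa ^ 2 - 1) * (2 * x))) x :=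
    h1.cpow_const hx
  have hS : SC x ≠ 0 := by
    intro h
    apply hD0
    rw [← SC_sq, h]; norm_num
  have h3 : DC x ^ ((1/2 : ℂ) - 1) = (SC x)⁻¹ := by
    rw [SC, ← Complex.cpow_neg]; norm_num
  rw [h3] at h2
  have h4 := ((hasDerivAt_id x).mul_const aa).div h2 hS
  refine (show HasDerivAt YC _ x from h4).congr_deriv ?_
  have h5 : SC x ^ 2 = 1 + (aa ^ 2 - 1) * x ^ 2 := by rw [SC_sq, DC]
  simp only [id]
  field_simp
  linear_combination aa * h5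

theorem WC_hasDeriv {x : ℂ} (hx : DC x ∈ slitPlane) (hy : YC x - 1 ≠ 0) :
    HasDerivAt WC (-(aa / SC x ^ 3) / (2 * I * pp * (YC x - 1) ^ 2)) x := by
  have h1 := ((YC_hasDeriv hx).sub_const 1).const_mul (2 * I * pp)
  have hne : 2 * I * pp * (YC x - 1) ≠ 0 := by
    simp [Complex.I_ne_zero, pp_ne, hy]
  have h2 := (hasDerivAt_const x (1:ℂ)).div h1 hne
  refine (show HasDerivAt WC _ x from h2).congr_deriv ?_
  have h3 := pp_ne
  have h4 := Complex.I_ne_zero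
  field_simp
  ring

theorem sig_mem {t : ℝ} (ht : 0 ≤ t) : -1 ≤ (t - 1) / (t + 1) ∧ (t - 1) / (t + 1) < 1 := by
  have h : 0 < t + 1 := by linarith
  constructor
  · rw [le_div_iff₀ h]; linarith
  · rw [div_lt_one h]; linarith

theorem sig_abs {t : ℝ} (ht : 0 ≤ t) : |(t - 1) / (t + 1)| ≤ 2 := by
  obtain ⟨h1, h2⟩ := sig_mem ht
  rw [abs_le]; constructor <;> linarith

theorem sig_deriv {t : ℝ} (ht : 0 ≤ t) :
    HasDerivAt (fun t : ℝ => (t - 1) / (t + 1)) (2 / (t + 1) ^ 2) t := by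
  have h : t + 1 ≠ 0 := by linarith
  have := ((hasDerivAt_id t).sub_const 1).div ((hasDerivAt_id t).add_const 1) h
  refine (show HasDerivAt (fun t : ℝ => (t - 1) / (t + 1)) _ t from this).congr_deriv ?_
  simp only [id]
  field_simp
  ring

theorem wArc_hasDeriv {t : ℝ} (ht : 0 ≤ t) :
    HasDerivAt wArc ((-(aa / SC (((t - 1) / (t + 1) : ℝ) : ℂ) ^ 3) /
      (2 * I * pp * (YC (((t - 1) / (t + 1) : ℝ) : ℂ) - 1) ^ 2)) * ((2 / (t + 1) ^ 2 : ℝ) : ℂ)) t := by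
  obtain ⟨h1, h2⟩ := sig_mem ht
  have h3 := (WC_hasDeriv (DC_slit (sig_abs ht)) (YC_ne_one h1 h2)).comp_ofReal
  have h4 := h3.scomp t (sig_deriv ht)
  refine (show HasDerivAt wArc _ t from h4).congr_deriv ?_
  rw [Complex.real_smul, mul_comm]

theorem wArc_deriv_ne {t : ℝ} (ht : 0 ≤ t) : deriv wArc t ≠ 0 := by
  obtain ⟨h1, h2⟩ := sig_mem ht
  rw [(wArc_hasDeriv ht).deriv]
  have e1 := aa_ne
  have e2 := SC_ne (sig_abs ht)
  have e3 := pp_ne
  have e4 := YC_ne_one h1 h2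
  have e5 : (t:ℝ) + 1 ≠ 0 := by linarith
  refine mul_ne_zero (div_ne_zero (neg_ne_zero.mpr (div_ne_zero e1 (pow_ne_zero _ e2))) ?_) ?_
  · exact mul_ne_zero (mul_ne_zero (mul_ne_zero two_ne_zero Complex.I_ne_zero) e3) (pow_ne_zero _ e4)
  · rw [Ne, Complex.ofReal_eq_zero]
    exact div_ne_zero two_ne_zero (pow_ne_zero _ e5)

theorem wArc_ne {t : ℝ} (ht : 0 ≤ t) : wArc t ≠ 0 := by
  obtain ⟨h1, h2⟩ := sig_mem ht
  rw [wArc, WC]
  refine div_ne_zero one_ne_zero ?_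
  exact mul_ne_zero (mul_ne_zero (mul_ne_zero two_ne_zero Complex.I_ne_zero) pp_ne) (YC_ne_one h1 h2)

theorem wArc_inv {t : ℝ} (_ht : 0 ≤ t) :
    (wArc t)⁻¹ = 2 * I * pp * (YC (((t - 1) / (t + 1) : ℝ) : ℂ) - 1) := by
  rw [wArc, WC, one_div, inv_inv]

theorem wArc_analytic : AnalyticOnNhd ℝ wArc (Ici 0) := by
  intro t ht
  have ht' : 0 ≤ t := ht
  obtain ⟨h1, h2⟩ := sig_mem ht'
  set σ : ℝ := (t - 1) / (t + 1) with hσ
  have hs := DC_slit (sig_abs ht')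
  rw [← hσ] at hs
  have a1 : AnalyticAt ℂ DC (σ:ℂ) := by
    unfold DC; fun_prop
  have a2 : AnalyticAt ℂ SC (σ:ℂ) := a1.cpow analyticAt_const hs
  have a3 : AnalyticAt ℂ YC (σ:ℂ) := by
    have : AnalyticAt ℂ (fun x : ℂ => x * aa) (σ:ℂ) := by fun_prop
    exact this.div a2 (SC_ne (sig_abs ht'))
  have a4 : AnalyticAt ℂ WC (σ:ℂ) := by
    have : AnalyticAt ℂ (fun x : ℂ => 2 * I * pp * (YC x - 1)) (σ:ℂ) :=
      analyticAt_const.mul (a3.sub analyticAt_const)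
    refine (analyticAt_const (v := (1:ℂ))).div this ?_
    exact mul_ne_zero (mul_ne_zero (mul_ne_zero two_ne_zero Complex.I_ne_zero) pp_ne)
      (YC_ne_one h1 h2)
  have a5 : AnalyticAt ℝ WC (σ:ℂ) := a4.restrictScalars
  have a6 : AnalyticAt ℝ (fun x : ℝ => (x:ℂ)) σ := Complex.ofRealCLM.analyticAt σ
  have a7 : AnalyticAt ℝ (fun x : ℝ => WC (x:ℂ)) σ :=
    AnalyticAt.fun_comp (f := fun x : ℝ => (x:ℂ)) (x := σ) a5 a6
  have hne : t + 1 ≠ 0 := by linarith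
  have a8 : AnalyticAt ℝ (fun t : ℝ => (t - 1) / (t + 1)) t := by
    refine AnalyticAt.div (by fun_prop) (by fun_prop) hne
  exact AnalyticAt.fun_comp (f := fun t : ℝ => (t - 1) / (t + 1)) (x := t) a7 a8

theorem sig_inj {s t : ℝ} (hs : 0 ≤ s) (ht : 0 ≤ t) (h : (s - 1) / (s + 1) = (t - 1) / (t + 1)) :
    s = t := by
  have h1 : s + 1 ≠ 0 := by linarith
  have h2 : t + 1 ≠ 0 := by linarith
  rw [div_eq_div_iff h1 h2] at h
  linarith

theorem YC_injOn {σ τ : ℝ} (hσ : |σ| ≤ 2) (hτ : |τ| ≤ 2) (h : YC σ = YC τ) : σ = τ := by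
  have hD1 := DC_ne hσ
  have hD2 := DC_ne hτ
  have ha := aa_ne
  have h1 : YC σ ^ 2 = YC τ ^ 2 := by rw [h]
  rw [YC_sq, YC_sq, div_eq_div_iff hD1 hD2, DC, DC] at h1
  have h2 : aa ^ 2 * ((σ:ℂ) ^ 2 - (τ:ℂ) ^ 2) = 0 := by linear_combination h1
  have h3 : (σ:ℂ) ^ 2 = (τ:ℂ) ^ 2 := by
    rcases mul_eq_zero.mp h2 with h | h
    · exact absurd h (pow_ne_zero _ ha)
    · linear_combination h
  have h4 : SC (σ:ℂ) = SC (τ:ℂ) := by rw [SC, SC, DC, DC, h3]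
  rw [YC, YC, h4] at h
  have hS := SC_ne hτ
  field_simp at h
  exact_mod_cast h

theorem wArc_injOn : InjOn wArc (Ici 0) := by
  intro s hs t ht h
  have hs' : 0 ≤ s := hs
  have ht' : 0 ≤ t := ht
  have h1 : (wArc s)⁻¹ = (wArc t)⁻¹ := by rw [h]
  rw [wArc_inv hs', wArc_inv ht'] at h1
  have hc : (2 * I * pp) ≠ 0 := mul_ne_zero (mul_ne_zero two_ne_zero Complex.I_ne_zero) pp_ne
  have h2 := mul_left_cancel₀ hc h1
  have h3 : YC (((s - 1) / (s + 1) : ℝ) : ℂ) = YC (((t - 1) / (t + 1) : ℝ) : ℂ) := by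
    linear_combination h2
  exact sig_inj hs' ht' (YC_injOn (sig_abs hs') (sig_abs ht') h3)

theorem wArc_tendsto : Tendsto wArc atTop (cocompact ℂ) := by
  rw [← Metric.cobounded_eq_cocompact, ← tendsto_norm_atTop_iff_cobounded]
  have hσ : Tendsto (fun t : ℝ => (t - 1) / (t + 1)) atTop (𝓝 1) := by
    have h1 : Tendsto (fun t : ℝ => 1 - 2 / (t + 1)) atTop (𝓝 (1 - 0)) := by
      refine tendsto_const_nhds.sub ?_
      exact Tendsto.div_atTop tendsto_const_nhds (tendsto_atTop_add_const_right _ 1 tendsto_id)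
    rw [sub_zero] at h1
    refine h1.congr' ?_
    filter_upwards [eventually_ge_atTop 0] with t ht
    have : t + 1 ≠ 0 := by linarith
    field_simp
    ring
  have hYc : ContinuousAt YC 1 := by
    have := DC_slit (σ := 1) (by norm_num)
    push_cast at this
    exact (YC_hasDeriv this).continuousAt
  have hY : Tendsto (fun t : ℝ => ‖2 * I * pp * (YC (((t - 1) / (t + 1) : ℝ) : ℂ) - 1)‖) atTop
      (𝓝 0) := by
    have h1 : Tendsto (fun t : ℝ => ((((t - 1) / (t + 1) : ℝ)) : ℂ)) atTop (𝓝 ((1:ℝ):ℂ)) :=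
      (Complex.continuous_ofReal.tendsto _).comp hσ
    rw [Complex.ofReal_one] at h1
    have h2 := hYc.tendsto.comp h1
    rw [YC_one] at h2
    have h3 := ((h2.sub_const 1).const_mul (2 * I * pp)).norm
    simpa using h3
  have hpos : ∀ᶠ t : ℝ in atTop, 0 < ‖2 * I * pp * (YC (((t - 1) / (t + 1) : ℝ) : ℂ) - 1)‖ := by
    filter_upwards [eventually_ge_atTop 0] with t ht
    obtain ⟨h1, h2⟩ := sig_mem ht
    rw [norm_pos_iff]
    exact mul_ne_zero (mul_ne_zero (mul_ne_zero two_ne_zero Complex.I_ne_zero) pp_ne)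
      (YC_ne_one h1 h2)
  have h4 : Tendsto (fun t : ℝ => ‖2 * I * pp * (YC (((t - 1) / (t + 1) : ℝ) : ℂ) - 1)‖) atTop
      (𝓝[>] 0) := tendsto_nhdsWithin_iff.mpr ⟨hY, hpos⟩
  refine (tendsto_inv_nhdsGT_zero.comp h4).congr (fun t => ?_)
  simp only [Function.comp_apply]
  rw [wArc, WC, norm_div, norm_one, one_div]

end Pool.Agent.Helper94.Supp
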