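import Mathlib

open Complex Metric Set Filter Topology

namespace Pool.Agent.Helper94.Supp

/-- The open unit disk as a type. -/
def Disk : Type := Metric.ball (0 : ℂ) 1

/-- The disk carries the topology induced from the plane. -/
noncomputable instance : TopologicalSpace Disk := instTopologicalSpaceSubtype

/-- `φ` is the restriction to the disk of a function analytic on the disk. -/
def IsAnalytic (φ : C(Disk, ℂ)) : Prop :=
  ∃ G : ℂ → ℂ, DifferentiableOn ℂ G (Metric.ball 0 1) ∧ ∀ z : Disk, φ z = G z.1

theorem IsAnalytic.add {a b : C(Disk, ℂ)} (ha : IsAnalytic a) (hb : IsAnalytic b) :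
    IsAnalytic (a + b) := by
  obtain ⟨F, hF, hFa⟩ := ha
  obtain ⟨G, hG, hGb⟩ := hb
  exact ⟨fun z => F z + G z, hF.add hG, fun z => by rw [ContinuousMap.add_apply, hFa, hGb]⟩

theorem IsAnalytic.zero : IsAnalytic (0 : C(Disk, ℂ)) :=
  ⟨fun _ => 0, differentiableOn_const _, fun _ => rfl⟩

theorem IsAnalytic.smul (c : ℂ) {a : C(Disk, ℂ)} (ha : IsAnalytic a) :
    IsAnalytic (c • a) := by
  obtain ⟨F, hF, hFa⟩ := ha
  exact ⟨fun z => c * F z, hF.const_mul c, fun z => by
    rw [ContinuousMap.smul_apply, hFa, smul_eq_mul]⟩

/-- The analytic functions inside the space of continuous functions on the disk. -/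
def analyticSubmodule : Submodule ℂ C(Disk, ℂ) where
  carrier := {φ | IsAnalytic φ}
  add_mem' := IsAnalytic.add
  zero_mem' := IsAnalytic.zero
  smul_mem' := fun c _ ha => IsAnalytic.smul c ha

/-- The space of analytic functions on the unit disk, a linear subspace of the space of continuous
functions on the disk; its topology is the compact-open topology, that is, the topology of
locally uniform convergence. -/
def HD : Type := analyticSubmodule

/-- Pointwise addition. -/
noncomputable instance : AddCommMonoid HD := analyticSubmodule.addCommMonoid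

/-- Pointwise scalar multiplication. -/
noncomputable instance : Module ℂ HD := analyticSubmodule.module

/-- The topology induced by the compact-open topology of `C(Disk, ℂ)`. -/
noncomputable instance : TopologicalSpace HD := instTopologicalSpaceSubtype

/-- The function on the disk underlying an element of `HD`. -/
noncomputable def HD.fn (f : HD) : Disk → ℂ := f.1

/-- The class S of univalent functions on the disk normalised by value 0 and derivative 1 at 0. -/
def classS : Set HD :=
  {f | Function.Injective f.fn ∧ ∃ G : ℂ → ℂ, DifferentiableOn ℂ G (Metric.ball 0 1) ∧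
    (∀ z : Disk, f.fn z = G z.1) ∧ G 0 = 0 ∧ deriv G 0 = 1}

/-- Support points of S: the real part of some continuous linear functional on the space of
analytic functions that is not constant on S is maximised over S by `f`. -/
def IsSupportPoint (f : HD) : Prop :=
  f ∈ classS ∧ ∃ L : HD →L[ℂ] ℂ, (∃ g ∈ classS, ∃ k ∈ classS, L g ≠ L k) ∧
    ∀ g ∈ classS, (L g).re ≤ (L f).re

/-- `w` (used only on `[0, ∞)`) is a regular injective real-analytic parametrisation, from a finite
nonzero point to infinity, of the set of values omitted by `f`. -/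
structure OmittedArc (f : HD) (w : ℝ → ℂ) : Prop where
  analytic : AnalyticOnNhd ℝ w (Set.Ici 0)
  regular : ∀ t ∈ Set.Ici (0:ℝ), deriv w t ≠ 0
  injective : Set.InjOn w (Set.Ici 0)
  start_ne : w 0 ≠ 0
  to_infinity : Filter.Tendsto w Filter.atTop (Filter.cocompact ℂ)
  image_eq : w '' Set.Ici 0 = (Set.range f.fn)ᶜ

/-- Some continuous branch of the argument of `w t` is a monotone function of `t ≥ 0`. -/
def MonotonicArgument (w : ℝ → ℂ) : Prop :=
  ∃ θ : ℝ → ℝ, ContinuousOn θ (Set.Ici 0) ∧
    (∀ t ∈ Set.Ici (0:ℝ), w t = (‖w t‖ : ℂ) * Complex.exp ((θ t : ℂ) * Complex.I)) ∧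
    (MonotoneOn θ (Set.Ici 0) ∨ AntitoneOn θ (Set.Ici 0))

/-- Some continuous branch of the argument of `w' t / w t` (the angle between the radius vector
and the tangent vector) is a monotone function of `t ≥ 0`. -/
def MonotonicAngle (w : ℝ → ℂ) : Prop :=
  ∃ α : ℝ → ℝ, ContinuousOn α (Set.Ici 0) ∧
    (∀ t ∈ Set.Ici (0:ℝ),
      deriv w t / w t = (‖deriv w t / w t‖ : ℂ) * Complex.exp ((α t : ℂ) * Complex.I)) ∧
    (MonotoneOn α (Set.Ici 0) ∨ AntitoneOn α (Set.Ici 0))

end Pool.Agent.Helper94.Supp
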