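import Pool.Agent.Helper94.Supp.Abs

open MeasureTheory Complex Metric Set Filter Topology
open Pool.Agent.Helper94.Area

namespace Pool.Agent.Helper94.Supp

theorem tc_sub {f g : ℂ → ℂ} (hf : DifferentiableOn ℂ f (ball 0 1))
    (hg : DifferentiableOn ℂ g (ball 0 1)) (n : ℕ) :
    tc (fun z => f z - g z) n = tc f n - tc g n := by
  have h1 : ∀ z ∈ ball (0:ℂ) 1, HasSum (fun n => (tc f n - tc g n) * z ^ n) (f z - g z) := by
    intro z hz
    refine hs_congr (fun n => ?_) ((tc_hasSum hf hz).sub (tc_hasSum hg hz))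
    ring
  exact coeff_unique (fun z hz => tc_hasSum (hf.sub hg) hz) h1 n

theorem Lam_add {c0 : ℕ → ℂ} (hw : Summable (fun i => ‖wt c0 i‖)) {F G : ℂ → ℂ}
    (hF : Continuous (fun θ : ℝ => F (zt θ))) (hG : Continuous (fun θ : ℝ => G (zt θ))) :
    Lam c0 (fun z => F z + G z) = Lam c0 F + Lam c0 G := by
  have hB := continuous_Bk hw
  rw [Lam, Lam, Lam, ← mul_add, ← intervalIntegral.integral_add]
  · congr 1
    refine intervalIntegral.integral_congr (fun θ _ => ?_)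
    ring
  · exact (hB.mul hF).intervalIntegrable _ _
  · exact (hB.mul hG).intervalIntegrable _ _

theorem Lam_smul {c0 : ℕ → ℂ} (a : ℂ) (F : ℂ → ℂ) :
    Lam c0 (fun z => a * F z) = a * Lam c0 F := by
  rw [Lam, Lam]
  have : ∀ θ : ℝ, Bk c0 θ * (a * F (zt θ)) = a * (Bk c0 θ * F (zt θ)) := fun θ => by ring
  simp_rw [this]
  rw [intervalIntegral.integral_const_mul]
  ring

theorem Lam_congr {c0 : ℕ → ℂ} {F G : ℂ → ℂ} (h : ∀ θ : ℝ, F (zt θ) = G (zt θ)) :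
    Lam c0 F = Lam c0 G := by
  rw [Lam, Lam]
  simp_rw [h]

/-- bound of the functional on functions vanishing to order two -/
theorem Lam_bound {c0 : ℕ → ℂ} (hw : Summable (fun i => ‖wt c0 i‖)) {η : ℝ}
    (hη : ∑' i, ‖wt c0 (i + 1)‖ ≤ η) {G : ℂ → ℂ} (hG : DifferentiableOn ℂ G (ball 0 1))
    (h1 : tc G 1 = 0) {M : ℝ} (hM0 : 0 ≤ M) (hM : ∀ θ : ℝ, ‖G (zt θ)‖ ≤ M) :
    ‖Lam c0 G‖ ≤ η * M := by
  have hs := Lam_hasSum hw hG
  have hs' := (hasSum_nat_add_iff' 1).mpr hs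
  have e0 : ∑ i ∈ Finset.range 1, (2 * (i:ℂ) + 1) * (starRingEnd ℂ) (c0 (i + 1)) * tc G (i + 1)
      = 0 := by
    simp [h1]
  rw [e0, sub_zero] at hs'
  rw [← hs'.tsum_eq]
  have hw1 : Summable (fun i => ‖wt c0 (i + 1)‖) := (summable_nat_add_iff 1).mpr hw
  have hle : ∀ i : ℕ, ‖(2 * ((i + 1 : ℕ):ℂ) + 1) * (starRingEnd ℂ) (c0 (i + 1 + 1)) *
      tc G (i + 1 + 1)‖ ≤ ‖wt c0 (i + 1)‖ * M := by
    intro i
    have hc := cauchy_half hG hM (i + 1 + 1)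
    have h2 : ‖(2:ℂ) ^ (i + 1 + 1)‖ = 2 ^ (i + 1 + 1) := by rw [norm_pow]; simp
    rw [wt, norm_mul, norm_mul _ ((2:ℂ) ^ (i + 1 + 1)), h2, mul_assoc, mul_comm _ M]
    gcongr
  have hsb : Summable (fun i => ‖wt c0 (i + 1)‖ * M) := hw1.mul_right M
  have hsn : Summable (fun i : ℕ => ‖(2 * ((i + 1 : ℕ):ℂ) + 1) * (starRingEnd ℂ) (c0 (i + 1 + 1)) *
      tc G (i + 1 + 1)‖) := Summable.of_nonneg_of_le (fun _ => norm_nonneg _) hle hsb
  refine (norm_tsum_le_tsum_norm hsn).trans ?_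
  refine (hsn.tsum_le_tsum hle hsb).trans ?_
  rw [tsum_mul_right]
  gcongr

theorem weighted_sub_summable {x y : ℕ → ℂ}
    (hx : Summable (fun i : ℕ => (2 * (i:ℝ) + 1) * ‖x i‖ ^ 2))
    (hy : Summable (fun i : ℕ => (2 * (i:ℝ) + 1) * ‖y i‖ ^ 2)) :
    Summable (fun i : ℕ => (2 * (i:ℝ) + 1) * ‖x i - y i‖ ^ 2) := by
  refine Summable.of_nonneg_of_le (fun i => by positivity) (fun i => ?_)
    ((hx.mul_left 2).add (hy.mul_left 2))
  have h1 : ‖x i - y i‖ ^ 2 ≤ 2 * ‖x i‖ ^ 2 + 2 * ‖y i‖ ^ 2 := by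
    have := norm_sub_le (x i) (y i)
    nlinarith [norm_nonneg (x i - y i), norm_nonneg (x i), norm_nonneg (y i),
      sq_nonneg (‖x i‖ - ‖y i‖)]
  have h2 : (0:ℝ) ≤ 2 * (i:ℝ) + 1 := by positivity
  nlinarith [mul_le_mul_of_nonneg_left h1 h2]

theorem main_ineq {h0 h : ℂ → ℂ} (hh0 : DifferentiableOn ℂ h0 (ball 0 1)) (h00 : h0 0 = 1)
    (hsum0 : HasSum (fun i : ℕ => (2 * (i:ℝ) + 1) * ‖tc h0 (i + 1)‖ ^ 2) 1)
    (hw : Summable (fun i => ‖wt (tc h0) i‖)) (hη : ∑' i, ‖wt (tc h0) (i + 1)‖ ≤ 1/10)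
    (hh : DifferentiableOn ℂ h (ball 0 1)) (hh1 : h 0 = 1)
    (hne : ∀ z ∈ ball (0:ℂ) 1, h z ≠ 0)
    (harea : ∀ N, ∑ j ∈ Finset.range N, (2 * (j:ℝ) + 1) * ‖tc h (j + 1)‖ ^ 2 ≤ 1) :
    (Lam (tc h0) (fun z => -(1/2) * h0 z ^ 3 / h z ^ 2)).re
      ≤ (Lam (tc h0) (fun z => -(1/2) * h0 z)).re
        - (1/4) * ∑' i : ℕ, (2 * (i:ℝ) + 1) * ‖tc h (i + 1) - tc h0 (i + 1)‖ ^ 2 := by
  have hsumh : Summable (fun j : ℕ => (2 * (j:ℝ) + 1) * ‖tc h (j + 1)‖ ^ 2) :=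
    summable_of_sum_range_le (fun n => by positivity) harea
  have hle1 : ∑' j : ℕ, (2 * (j:ℝ) + 1) * ‖tc h (j + 1)‖ ^ 2 ≤ 1 :=
    hsumh.tsum_le_of_sum_range_le harea
  have hsumd := weighted_sub_summable hsumh hsum0.summable
  set N : ℝ := ∑' i : ℕ, (2 * (i:ℝ) + 1) * ‖tc h (i + 1) - tc h0 (i + 1)‖ ^ 2 with hN
  have hN0 : 0 ≤ N := tsum_nonneg (fun i => by positivity)
  -- the difference
  set δ : ℂ → ℂ := fun z => h z - h0 z with hδ
  have hδd : DifferentiableOn ℂ δ (ball 0 1) := hh.sub hh0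
  have hδ0 : δ 0 = 0 := by simp [hδ, hh1, h00]
  have htcδ : ∀ n, tc δ n = tc h n - tc h0 n := fun n => tc_sub hh hh0 n
  -- l2 bounds
  have l2le : ∀ (x : ℕ → ℂ) (K : ℝ), (∀ n, ∑ i ∈ Finset.range n, (2 * (i:ℝ) + 1) * ‖x i‖ ^ 2 ≤ K) →
      ∀ n, ∑ i ∈ Finset.range n, ‖x i‖ ^ 2 ≤ K := by
    intro x K hK n
    refine le_trans (Finset.sum_le_sum (fun i _ => ?_)) (hK n)
    have : (0:ℝ) ≤ i := by positivity
    nlinarith [sq_nonneg ‖x i‖]
  have hδhalf : ∀ θ : ℝ, ‖δ (zt θ)‖ ^ 2 ≤ N / 3 := by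
    intro θ
    refine sup_half hδd hδ0 (fun n => ?_) θ
    refine l2le (fun i => tc δ (i + 1)) N (fun m => ?_) n
    simp only [htcδ]
    exact hsumd.sum_le_tsum _ (fun i _ => by positivity)
  have hone : DifferentiableOn ℂ (fun _ : ℂ => (1:ℂ)) (ball 0 1) := differentiableOn_const _
  have tc_one_const : ∀ n, tc (fun _ : ℂ => (1:ℂ)) (n + 1) = 0 := by
    intro n
    have h1 : ∀ z ∈ ball (0:ℂ) 1, HasSum (fun n : ℕ => (if n = 0 then (1:ℂ) else 0) * z ^ n) 1 := by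
      intro z hz
      have := hasSum_ite_eq (0:ℕ) (1:ℂ)
      refine hs_congr (fun n => ?_) this
      by_cases hn : n = 0
      · simp [hn]
      · simp [hn]
    have h2 := coeff_unique (fun z hz => tc_hasSum hone hz) h1 (n + 1)
    rw [h2]; simp
  have hhalf : ∀ (g : ℂ → ℂ), DifferentiableOn ℂ g (ball 0 1) → g 0 = 1 →
      (∀ n, ∑ j ∈ Finset.range n, (2 * (j:ℝ) + 1) * ‖tc g (j + 1)‖ ^ 2 ≤ 1) →
      ∀ θ : ℝ, ‖g (zt θ) - 1‖ ≤ 0.5774 := by
    intro g hg hg0 hga θ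
    have h1 : DifferentiableOn ℂ (fun z => g z - 1) (ball 0 1) := hg.sub hone
    have h2 := sup_half h1 (by simp [hg0]) (N := 1) (fun n => by
      refine l2le (fun i => tc (fun z => g z - 1) (i + 1)) 1 (fun m => ?_) n
      have : ∀ i, tc (fun z => g z - 1) (i + 1) = tc g (i + 1) := by
        intro i
        rw [tc_sub hg hone, tc_one_const, sub_zero]
      simp only [this]
      exact hga m) θ
    nlinarith [norm_nonneg (g (zt θ) - 1)]
  have hhb := hhalf h hh hh1 harea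
  have hh0b := hhalf h0 hh0 h00 (fun n => by
    have := sum_le_hasSum (Finset.range n) (fun i _ => by positivity) hsum0
    exact this)
  -- bound for Y
  set Y : ℂ → ℂ := fun z => (2 * h z + h0 z) / h z ^ 2 with hY
  have hYd : DifferentiableOn ℂ Y (ball 0 1) := by
    refine ((hh.const_mul 2).add hh0).div (hh.pow 2) (fun z hz => pow_ne_zero _ (hne z hz))
  have hYb : ∀ θ : ℝ, ‖Y (zt θ)‖ ≤ 14 := by
    intro θ
    have a1 := hhb θ
    have a2 := hh0b θ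
    have b1 : 0.4226 ≤ ‖h (zt θ)‖ := by
      have := norm_sub_norm_le (1:ℂ) (1 - h (zt θ))
      rw [sub_sub_cancel, norm_one, norm_sub_rev] at this
      linarith
    have b2 : ‖h0 (zt θ)‖ ≤ 1.5774 := by
      have := norm_sub_norm_le (h0 (zt θ)) 1
      rw [norm_one] at this
      linarith
    have b3 : ‖2 * h (zt θ) + h0 (zt θ)‖ ≤ 2 * ‖h (zt θ)‖ + ‖h0 (zt θ)‖ := by
      refine (norm_add_le _ _).trans ?_
      rw [norm_mul]; simp
    simp only [hY]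
    rw [norm_div, norm_pow, div_le_iff₀ (by positivity)]
    nlinarith
  -- the second order term
  set Q : ℂ → ℂ := fun z => δ z ^ 2 * Y z with hQ
  have hQd : DifferentiableOn ℂ Q (ball 0 1) := (hδd.pow 2).mul hYd
  have hQ1 : tc Q 1 = 0 := by
    rw [tc_one]
    have hd1 : HasDerivAt δ (deriv δ 0) 0 :=
      (hδd.differentiableAt (isOpen_ball.mem_nhds (by simp))).hasDerivAt
    have hd2 : HasDerivAt Y (deriv Y 0) 0 :=
      (hYd.differentiableAt (isOpen_ball.mem_nhds (by simp))).hasDerivAt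
    have hd3 := (hd1.pow 2).mul hd2
    have hd4 : HasDerivAt Q _ 0 := hd3
    rw [hd4.deriv]
    simp [hδ0]
  have hQb : ∀ θ : ℝ, ‖Q (zt θ)‖ ≤ N / 3 * 14 := by
    intro θ
    simp only [hQ]
    rw [norm_mul, norm_pow]
    exact mul_le_mul (hδhalf θ) (hYb θ) (norm_nonneg _) (by positivity)
  have hLQ := Lam_bound hw hη hQd hQ1 (by positivity) hQb
  -- continuity on the circle
  have cont : ∀ (g : ℂ → ℂ), DifferentiableOn ℂ g (ball 0 1) →
      Continuous (fun θ : ℝ => g (zt θ)) := fun g hg =>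
    hg.continuousOn.comp_continuous continuous_zt zt_mem
  -- the decomposition
  have hdec : Lam (tc h0) (fun z => -(1/2) * h0 z ^ 3 / h z ^ 2)
      = Lam (tc h0) (fun z => -(1/2) * h0 z) + (Lam (tc h0) δ + -(1/2) * Lam (tc h0) Q) := by
    have c1 : Continuous (fun θ : ℝ => (fun z => -(1/2) * Q z) (zt θ)) :=
      continuous_const.mul (cont _ hQd)
    have c2 : Continuous (fun θ : ℝ => (fun z => -(1/2) * h0 z) (zt θ)) :=
      continuous_const.mul (cont _ hh0)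
    have c3 : Continuous (fun θ : ℝ => (fun z => δ z + -(1/2) * Q z) (zt θ)) :=
      (cont _ hδd).add c1
    rw [← Lam_smul, ← Lam_add hw (cont _ hδd) c1, ← Lam_add hw c2 c3]
    refine Lam_congr (fun θ => ?_)
    have hn := hne _ (zt_mem θ)
    simp only [hQ, hY, hδ]
    field_simp
    ring
  -- the first order term
  have hfirst : (Lam (tc h0) δ).re ≤ -(1/2) * N := by
    have hs := Complex.hasSum_re (Lam_hasSum hw hδd)
    have e1 : ∀ i : ℕ, ((2 * (i:ℂ) + 1) * (starRingEnd ℂ) (tc h0 (i + 1)) * tc δ (i + 1)).re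
        = (1/2) * ((2 * (i:ℝ) + 1) * ‖tc h (i + 1)‖ ^ 2)
          - (1/2) * ((2 * (i:ℝ) + 1) * ‖tc h0 (i + 1)‖ ^ 2)
          - (1/2) * ((2 * (i:ℝ) + 1) * ‖tc h (i + 1) - tc h0 (i + 1)‖ ^ 2) := by
      intro i
      rw [htcδ, ← Complex.normSq_eq_norm_sq, ← Complex.normSq_eq_norm_sq,
        ← Complex.normSq_eq_norm_sq, Complex.normSq_apply, Complex.normSq_apply,
        Complex.normSq_apply]
      have : (2 * (i:ℂ) + 1) = ((2 * (i:ℝ) + 1 : ℝ) : ℂ) := by push_cast; ring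
      rw [this, mul_assoc, Complex.re_ofReal_mul]
      simp only [Complex.mul_re, Complex.conj_re, Complex.conj_im, Complex.sub_re, Complex.sub_im]
      ring
    simp_rw [e1] at hs
    have hs2 := ((hsumh.hasSum.mul_left (1/2)).sub (hsum0.mul_left (1/2))).sub
      (hsumd.hasSum.mul_left (1/2))
    rw [hs.unique hs2]
    linarith
  rw [hdec, Complex.add_re, Complex.add_re]
  have hthird : (-(1/2) * Lam (tc h0) Q).re ≤ (1/2) * (1/10 * (N / 3 * 14)) := by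
    have h1 := Complex.re_le_norm (-(1/2) * Lam (tc h0) Q)
    rw [norm_mul] at h1
    have h2 : ‖(-(1/2) : ℂ)‖ = 1/2 := by simp
    rw [h2] at h1
    linarith
  linarith

end Pool.Agent.Helper94.Supp
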