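import Pool.Agent.Helper94.Supp.Hyper
import Pool.Agent.Helper94.Supp.Main

open MeasureTheory Complex Metric Set Filter Topology
open Pool.Agent.Helper94.Area

namespace Pool.Agent.Helper94.Supp

noncomputable def ss : ℝ := 1 / 1000000
noncomputable def aa : ℂ := 1 - ss * I
noncomputable def kk : ℂ := 1 - 1 / aa
noncomputable def pp : ℂ := aa ^ (-(1/2) : ℂ)

theorem ss_pos : 0 < ss := by unfold ss; norm_num

theorem aa_re : aa.re = 1 := by simp [aa]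
theorem aa_im : aa.im = -ss := by simp [aa]

theorem aa_ne : aa ≠ 0 := by
  intro h
  have := aa_re
  rw [h] at this
  simp at this

theorem aa_normSq : ‖aa‖ ^ 2 = 1 + ss ^ 2 := by
  rw [← Complex.normSq_eq_norm_sq, Complex.normSq_apply, aa_re, aa_im]; ring

theorem aa_norm_ge : 1 ≤ ‖aa‖ := by
  have h := aa_normSq
  nlinarith [norm_nonneg aa, sq_nonneg ss]

theorem kk_eq : kk = -(ss * I) / aa := by
  have := aa_ne
  rw [kk]
  field_simp
  rw [aa]; ring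

theorem kk_norm_sq : ‖kk‖ ^ 2 = ss ^ 2 / (1 + ss ^ 2) := by
  rw [kk_eq, norm_div, div_pow, aa_normSq, norm_neg, norm_mul, Complex.norm_I, mul_one,
    Complex.norm_real, Real.norm_eq_abs, sq_abs]

theorem kk_norm_le : ‖kk‖ ≤ ss := by
  rw [kk_eq, norm_div, norm_neg, norm_mul, Complex.norm_I, mul_one, Complex.norm_real,
    Real.norm_eq_abs, abs_of_pos ss_pos]
  exact div_le_self ss_pos.le aa_norm_ge

theorem pp_sq : pp ^ 2 = 1 / aa := by
  rw [pp, ← Complex.cpow_nat_mul]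
  have : ((2:ℕ):ℂ) * (-(1/2)) = -1 := by push_cast; ring
  rw [this, Complex.cpow_neg_one, one_div]

theorem pp_ne : pp ≠ 0 := by
  intro h
  have h1 := pp_sq
  rw [h] at h1
  have := aa_ne
  field_simp at h1
  simp at h1

theorem pp_norm4 : ‖pp‖ ^ 4 = 1 / (1 + ss ^ 2) := by
  have : ‖pp‖ ^ 4 = ‖pp ^ 2‖ ^ 2 := by rw [norm_pow]; ring
  rw [this, pp_sq, norm_div, norm_one, div_pow, aa_normSq, one_pow]

theorem pp_norm_le : ‖pp‖ ≤ 1 := by
  have h := pp_norm4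
  have h2 : ‖pp‖ ^ 4 ≤ 1 := by
    rw [h, div_le_one (by positivity)]
    nlinarith [sq_nonneg ss]
  by_contra hc
  push Not at hc
  have : 1 < ‖pp‖ ^ 4 := one_lt_pow₀ hc (by norm_num)
  linarith

theorem pp_norm_sq : ‖pp‖ ^ 2 = (1 - ‖kk‖ ^ 2) ^ ((1/2 : ℝ)) := by
  have h1 : 1 - ‖kk‖ ^ 2 = (‖pp‖ ^ 2) ^ 2 := by
    rw [kk_norm_sq, ← pow_mul, pp_norm4]
    have : (1 + ss ^ 2) ≠ 0 := by positivity
    field_simp
    ring
  rw [h1, ← Real.sqrt_eq_rpow, Real.sqrt_sq (by positivity)]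

noncomputable def EE (z : ℂ) : ℂ := (1 - kk * z ^ 2) ^ (1/4 : ℂ)

noncomputable def hf (z : ℂ) : ℂ := EE z - I * pp * z / EE z

theorem kz_norm {z : ℂ} (hz : z ∈ ball (0:ℂ) 1) : ‖kk * z ^ 2‖ < 1 := by
  rw [mem_ball_zero_iff] at hz
  rw [norm_mul, norm_pow]
  have h1 := kk_norm_le
  have h2 : ‖z‖ ^ 2 ≤ 1 := pow_le_one₀ (norm_nonneg _) hz.le
  have h3 : ss < 1 := by unfold ss; norm_num
  calc ‖kk‖ * ‖z‖ ^ 2 ≤ ss * 1 := by
        gcongr
        exact ss_pos.le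
    _ < 1 := by linarith

theorem kz_slit {z : ℂ} (hz : z ∈ ball (0:ℂ) 1) : 1 - kk * z ^ 2 ∈ slitPlane := by
  have := Complex.mem_slitPlane_of_norm_lt_one (z := -(kk * z ^ 2)) (by
    rw [norm_neg]; exact kz_norm hz)
  rwa [← sub_eq_add_neg] at this

theorem EE_diff : DifferentiableOn ℂ EE (ball 0 1) := by
  intro z hz
  unfold EE
  have h1 : DifferentiableAt ℂ (fun z : ℂ => 1 - kk * z ^ 2) z := by fun_prop
  exact (h1.cpow_const (kz_slit hz)).differentiableWithinAt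

theorem EE_pow4 (z : ℂ) : EE z ^ 4 = 1 - kk * z ^ 2 := by
  rw [EE, ← Complex.cpow_nat_mul]
  have : ((4:ℕ):ℂ) * (1/4) = 1 := by push_cast; ring
  rw [this, Complex.cpow_one]

theorem EE_ne {z : ℂ} (hz : z ∈ ball (0:ℂ) 1) : EE z ≠ 0 := by
  intro h
  have h1 := EE_pow4 z
  rw [h] at h1
  have := Complex.slitPlane_ne_zero (kz_slit hz)
  apply this
  rw [← h1]; norm_num

theorem EE_zero : EE 0 = 1 := by simp [EE]

theorem hf_zero : hf 0 = 1 := by simp [hf, EE_zero]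

theorem hf_diff : DifferentiableOn ℂ hf (ball 0 1) := by
  unfold hf
  refine EE_diff.sub (DifferentiableOn.div ?_ EE_diff (fun z hz => EE_ne hz))
  fun_prop

noncomputable def c0 (n : ℕ) : ℂ :=
  if Even n then (P (-1/4) (n / 2) : ℂ) * kk ^ (n / 2)
  else -(I * pp) * ((P (1/4) (n / 2) : ℂ) * kk ^ (n / 2))

theorem c0_even (k : ℕ) : c0 (2 * k) = (P (-1/4) k : ℂ) * kk ^ k := by
  rw [c0, if_pos (by simp), Nat.mul_div_cancel_left k (by norm_num)]

theorem c0_odd (k : ℕ) : c0 (2 * k + 1) = -(I * pp) * ((P (1/4) k : ℂ) * kk ^ k) := by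
  rw [c0, if_neg (by simp), show (2 * k + 1) / 2 = k by omega]

theorem c0_hasSum {z : ℂ} (hz : z ∈ ball (0:ℂ) 1) : HasSum (fun n => c0 n * z ^ n) (hf z) := by
  have h1 := P_hasSum (-1/4) (kz_norm hz)
  have h2 := P_hasSum (1/4) (kz_norm hz)
  have e1 : (1 - kk * z ^ 2) ^ (-(((-1/4 : ℝ)):ℂ)) = EE z := by
    rw [EE]; congr 1; push_cast; ring
  have e2 : (1 - kk * z ^ 2) ^ (-(((1/4 : ℝ)):ℂ)) = (EE z)⁻¹ := by
    rw [EE, Complex.cpow_neg]; push_cast; rfl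
  rw [e1] at h1
  rw [e2] at h2
  have h3 : HasSum (fun k => c0 (2 * k) * z ^ (2 * k)) (EE z) := by
    refine hs_congr (fun k => ?_) h1
    rw [c0_even, mul_pow, pow_mul]; ring
  have h4 : HasSum (fun k => c0 (2 * k + 1) * z ^ (2 * k + 1)) (-(I * pp * z) * (EE z)⁻¹) := by
    refine hs_congr (fun k => ?_) (h2.mul_left (-(I * pp * z)))
    rw [c0_odd, mul_pow, pow_succ, pow_mul]; ring
  have h5 := HasSum.even_add_odd (f := fun n => c0 n * z ^ n) h3 h4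
  have e3 : EE z + -(I * pp * z) * (EE z)⁻¹ = hf z := by
    rw [hf, div_eq_mul_inv]; ring
  rwa [e3] at h5

theorem tc_hf (n : ℕ) : tc hf n = c0 n :=
  coeff_unique (fun z hz => tc_hasSum hf_diff hz) (fun z hz => c0_hasSum hz) n

theorem hf_norm_sum : HasSum (fun i : ℕ => (2 * (i:ℝ) + 1) * ‖tc hf (i + 1)‖ ^ 2) 1 := by
  set t := ‖kk‖ ^ 2 with ht
  have ht0 : 0 ≤ t := by positivity
  have ht1 : t < 1 := by
    rw [ht, kk_norm_sq, div_lt_one (by positivity)]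
    linarith
  have hA := (summable_aseq ht0 ht1).hasSum
  have hB := (summable_bseq ht0 ht1).hasSum
  have hid := hyper_identity ht0 ht1
  set A := ∑' m, aseq m * t ^ m with hAdef
  set B := ∑' m, bseq m * t ^ m with hBdef
  have h1 : HasSum (fun k : ℕ => (2 * ((2 * k : ℕ):ℝ) + 1) * ‖tc hf (2 * k + 1)‖ ^ 2)
      (‖pp‖ ^ 2 * A) := by
    have := hA.mul_left (‖pp‖ ^ 2)
    refine (show (fun k : ℕ => (2 * ((2 * k : ℕ):ℝ) + 1) * ‖tc hf (2 * k + 1)‖ ^ 2)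
      = (fun i => ‖pp‖ ^ 2 * (aseq i * t ^ i)) from ?_) ▸ this
    ext k
    rw [tc_hf, c0_odd, norm_mul, norm_neg, norm_mul, Complex.norm_I, one_mul, norm_mul,
      Complex.norm_real, norm_pow, Real.norm_eq_abs, mul_pow, mul_pow, sq_abs, ht, aseq,
      ← pow_mul, ← pow_mul]
    push_cast
    ring
  have h2 : HasSum (fun k : ℕ => (2 * ((2 * k + 1 : ℕ):ℝ) + 1) * ‖tc hf (2 * k + 1 + 1)‖ ^ 2)
      (1 - B) := by
    have h3 := (hasSum_nat_add_iff' 1).mpr hB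
    have e0 : ∑ i ∈ Finset.range 1, bseq i * t ^ i = 1 := by
      simp [bseq, P_zero]
    rw [e0] at h3
    have h4 := h3.neg
    rw [neg_sub] at h4
    refine (show (fun k : ℕ => (2 * ((2 * k + 1 : ℕ):ℝ) + 1) * ‖tc hf (2 * k + 1 + 1)‖ ^ 2)
      = (fun i => -(bseq (i + 1) * t ^ (i + 1))) from ?_) ▸ h4
    ext k
    rw [show 2 * k + 1 + 1 = 2 * (k + 1) by ring, tc_hf, c0_even, norm_mul, Complex.norm_real,
      norm_pow, Real.norm_eq_abs, mul_pow, sq_abs, ht, bseq, ← pow_mul, ← pow_mul]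
    push_cast
    ring
  have h3 := HasSum.even_add_odd
    (f := fun i : ℕ => (2 * (i:ℝ) + 1) * ‖tc hf (i + 1)‖ ^ 2) h1 h2
  have e : ‖pp‖ ^ 2 * A + (1 - B) = 1 := by
    rw [hid, pp_norm_sq]
    have : (1 - t) ^ ((1/2 : ℝ)) * (1 - t) ^ (-(1/2) : ℝ) = 1 := by
      rw [← Real.rpow_add (by linarith)]
      norm_num
    rw [← ht]
    linear_combination B * this
  rwa [e] at h3

theorem c0_norm_le (i : ℕ) : ‖c0 (i + 1)‖ ≤ (1/1000) ^ i := by
  have hk : ‖kk‖ ≤ (1/1000) ^ 2 := by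
    refine kk_norm_le.trans (le_of_eq ?_)
    unfold ss; norm_num
  have hstep : ∀ m j : ℕ, j ≤ 2 * m → ‖kk‖ ^ m ≤ (1/1000 : ℝ) ^ j := by
    intro m j hj
    calc ‖kk‖ ^ m ≤ ((1/1000 : ℝ) ^ 2) ^ m := by gcongr
      _ = (1/1000 : ℝ) ^ (2 * m) := by rw [← pow_mul]
      _ ≤ (1/1000 : ℝ) ^ j := pow_le_pow_of_le_one (by norm_num) (by norm_num) hj
  rcases Nat.even_or_odd' (i + 1) with ⟨k, hk2 | hk2⟩
  · rw [hk2, c0_even, norm_mul, Complex.norm_real, norm_pow, Real.norm_eq_abs]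
    have h1 := abs_P_le (α := -1/4) (by norm_num) (by norm_num) k
    have h2 := hstep k i (by omega)
    calc |P (-1/4) k| * ‖kk‖ ^ k ≤ 1 * (1/1000) ^ i := by gcongr
      _ = _ := by ring
  · rw [hk2, c0_odd, norm_mul, norm_neg, norm_mul, Complex.norm_I, one_mul, norm_mul,
      Complex.norm_real, norm_pow, Real.norm_eq_abs]
    have h1 := abs_P_le (α := 1/4) (by norm_num) (by norm_num) k
    have h2 := hstep k i (by omega)
    calc ‖pp‖ * (|P (1/4) k| * ‖kk‖ ^ k) ≤ 1 * (1 * (1/1000) ^ i) := by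
          gcongr
          exact pp_norm_le
      _ = _ := by ring

theorem wt_norm_le (i : ℕ) : ‖wt (tc hf) i‖ ≤ 2 * (6/1000 : ℝ) ^ i := by
  rw [wt, tc_hf, norm_mul, norm_mul, RCLike.norm_conj, norm_pow]
  have h1 := c0_norm_le i
  have h2 : ‖(2 * (i:ℂ) + 1)‖ ≤ 3 ^ i := by
    have e : (2 * (i:ℂ) + 1) = ((2 * (i:ℝ) + 1 : ℝ) : ℂ) := by push_cast; ring
    rw [e, Complex.norm_real, Real.norm_eq_abs, abs_of_nonneg (by positivity)]
    have := one_add_mul_le_pow (a := (2:ℝ)) (by norm_num) i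
    norm_num at this
    linarith
  have h3 : ‖(2:ℂ)‖ = 2 := by simp
  rw [h3]
  calc ‖(2 * (i:ℂ) + 1)‖ * ‖c0 (i + 1)‖ * 2 ^ (i + 1)
      ≤ 3 ^ i * (1/1000) ^ i * 2 ^ (i + 1) := by gcongr
    _ = 2 * (6/1000 : ℝ) ^ i := by
      rw [pow_succ, ← mul_pow]
      have : (3 * (1/1000) : ℝ) ^ i * (2 ^ i * 2) = 2 * ((3 * (1/1000)) ^ i * 2 ^ i) := by ring
      rw [this, ← mul_pow]
      norm_num

theorem wt_summable : Summable (fun i => ‖wt (tc hf) i‖) := by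
  refine Summable.of_nonneg_of_le (fun _ => norm_nonneg _) wt_norm_le ?_
  exact (summable_geometric_of_lt_one (by norm_num) (by norm_num)).mul_left 2

theorem wt_tail : ∑' i, ‖wt (tc hf) (i + 1)‖ ≤ 1/10 := by
  have hs : Summable (fun i : ℕ => 2 * (6/1000 : ℝ) ^ (i + 1)) := by
    have := (summable_geometric_of_lt_one (r := (6/1000:ℝ)) (by norm_num) (by norm_num)).mul_left
      (2 * (6/1000))
    refine this.congr (fun i => ?_)
    rw [pow_succ]; ring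
  have h1 : Summable (fun i => ‖wt (tc hf) (i + 1)‖) := (summable_nat_add_iff 1).mpr wt_summable
  refine (h1.tsum_le_tsum (fun i => wt_norm_le (i + 1)) hs).trans ?_
  have : ∀ i : ℕ, 2 * (6/1000 : ℝ) ^ (i + 1) = (2 * (6/1000)) * (6/1000) ^ i := by
    intro i; rw [pow_succ]; ring
  simp_rw [this]
  rw [tsum_mul_left, tsum_geometric_of_lt_one (by norm_num) (by norm_num)]
  norm_num

end Pool.Agent.Helper94.Supp
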