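import Pool.Agent.Helper94.Supp.Func

open MeasureTheory Complex Metric Set Filter Topology
open Pool.Agent.Helper94.Area

namespace Pool.Agent.Helper94.Supp

theorem ball_sq {z : ℂ} (hz : z ∈ ball (0:ℂ) 1) : z ^ 2 ∈ ball (0:ℂ) 1 := by
  rw [mem_ball_zero_iff] at hz ⊢
  rw [norm_pow]
  exact pow_lt_one₀ (norm_nonneg _) hz (by norm_num)

theorem one_sub_ne {z : ℂ} (hz : z ∈ ball (0:ℂ) 1) : 1 - z ≠ 0 := by
  intro h
  have : z = 1 := by linear_combination -h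
  rw [this] at hz
  simp at hz

theorem akk : aa * (1 - kk) = 1 := by
  have := aa_ne
  rw [kk]; field_simp; ring

theorem pp_sq' : pp ^ 2 = 1 - kk := by
  rw [pp_sq, kk]; ring

theorem norm_two_kk : ‖2 * kk - 1‖ = 1 := by
  have h1 : 2 * kk - 1 = (aa - 2) / aa := by
    have := aa_ne
    rw [kk]; field_simp; ring
  have h2 : ‖aa - 2‖ = ‖aa‖ := by
    have : ‖aa - 2‖ ^ 2 = ‖aa‖ ^ 2 := by
      rw [← Complex.normSq_eq_norm_sq, ← Complex.normSq_eq_norm_sq, Complex.normSq_apply,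
        Complex.normSq_apply]
      simp [aa_re, aa_im]
      norm_num
    exact (pow_left_inj₀ (norm_nonneg _) (norm_nonneg _) (by norm_num)).mp this
  rw [h1, norm_div, h2]
  exact div_self (norm_ne_zero_iff.mpr aa_ne)

theorem hf_sq {z : ℂ} (hz : z ∈ ball (0:ℂ) 1) :
    hf z ^ 2 = (1 - z ^ 2) / EE z ^ 2 - 2 * I * pp * z := by
  have hE := EE_ne hz
  have h4 := EE_pow4 z
  have hp := pp_sq'
  rw [hf]
  field_simp
  have hI : I ^ 2 = -1 := Complex.I_sq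
  linear_combination h4 + (-z ^ 2) * hp + (pp ^ 2 * z ^ 2) * hI

theorem hf_ne {z : ℂ} (hz : z ∈ ball (0:ℂ) 1) : hf z ≠ 0 := by
  intro h
  have hE := EE_ne hz
  have h4 := EE_pow4 z
  have hp := pp_sq'
  rw [hf] at h
  field_simp at h
  have hI : I ^ 2 = -1 := Complex.I_sq
  have h1 : (2 * kk - 1) * z ^ 2 = 1 := by
    linear_combination (-EE z ^ 2 - I * pp * z) * h + h4 + z ^ 2 * hp - (pp ^ 2 * z ^ 2) * hI
  have h2 := congrArg norm h1
  rw [norm_mul, norm_two_kk, one_mul, norm_pow, norm_one] at h2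
  rw [mem_ball_zero_iff] at hz
  have : ‖z‖ ^ 2 < 1 := pow_lt_one₀ (norm_nonneg _) hz (by norm_num)
  linarith

/-- the extremal function -/
noncomputable def ff (z : ℂ) : ℂ := z / hf z ^ 2

theorem ff_diff : DifferentiableOn ℂ ff (ball 0 1) := by
  unfold ff
  exact differentiableOn_id.div (hf_diff.pow 2) (fun z hz => pow_ne_zero _ (hf_ne hz))

theorem ff_zero : ff 0 = 0 := by simp [ff]

theorem ff_deriv : deriv ff 0 = 1 := by
  have h1 : HasDerivAt (fun z => hf z ^ 2) (2 * hf 0 ^ 1 * deriv hf 0) 0 := by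
    have := (hf_diff.differentiableAt (isOpen_ball.mem_nhds
      (show (0:ℂ) ∈ ball (0:ℂ) 1 by simp))).hasDerivAt
    exact this.pow 2
  have h2 := (hasDerivAt_id (0:ℂ)).div h1 (by rw [hf_zero]; norm_num)
  have h3 : HasDerivAt ff _ 0 := h2
  rw [h3.deriv]
  simp [hf_zero]

/-- the inverse coordinate -/
noncomputable def uu (z : ℂ) : ℂ := (1 - z ^ 2) / (z * EE z ^ 2)

theorem inv_ff {z : ℂ} (hz : z ∈ ball (0:ℂ) 1) (hz0 : z ≠ 0) :
    (ff z)⁻¹ = uu z - 2 * I * pp := by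
  have hE := EE_ne hz
  rw [ff, inv_div, hf_sq hz, uu]
  field_simp

theorem uu_ne {z : ℂ} (hz : z ∈ ball (0:ℂ) 1) (hz0 : z ≠ 0) : uu z ≠ 0 := by
  rw [uu]
  exact div_ne_zero (one_sub_ne (ball_sq hz)) (mul_ne_zero hz0 (pow_ne_zero _ (EE_ne hz)))

noncomputable def VV (Z : ℂ) : ℂ := (1 + Z) / (1 - Z) - ss * I

theorem re_cayley {Z : ℂ} (hZ : Z ∈ ball (0:ℂ) 1) : 0 < ((1 + Z) / (1 - Z)).re := by
  have h1 := one_sub_ne hZ
  rw [mem_ball_zero_iff] at hZ
  have h2 : Complex.normSq Z < 1 := by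
    rw [Complex.normSq_eq_norm_sq]
    exact pow_lt_one₀ (norm_nonneg _) hZ (by norm_num)
  rw [Complex.normSq_apply] at h2
  have h3 : 0 < Complex.normSq (1 - Z) := Complex.normSq_pos.mpr h1
  rw [Complex.div_re, ← add_div]
  refine div_pos ?_ h3
  simp
  nlinarith

theorem VV_re {Z : ℂ} (hZ : Z ∈ ball (0:ℂ) 1) : 0 < (VV Z).re := by
  have := re_cayley hZ
  simp [VV]
  exact this

theorem VV_inj {Z W : ℂ} (hZ : Z ∈ ball (0:ℂ) 1) (hW : W ∈ ball (0:ℂ) 1)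
    (h : VV Z = VV W) : Z = W := by
  have h1 := one_sub_ne hZ
  have h2 := one_sub_ne hW
  simp only [VV] at h
  have h3 : (1 + Z) / (1 - Z) = (1 + W) / (1 - W) := by linear_combination h
  rw [div_eq_div_iff h1 h2] at h3
  linear_combination h3 / 2

theorem VV_eq {Z : ℂ} (hZ : Z ∈ ball (0:ℂ) 1) : VV Z = (aa + (2 - aa) * Z) / (1 - Z) := by
  have h1 := one_sub_ne hZ
  rw [VV, aa]
  field_simp
  ring

theorem VV_sq {z : ℂ} (hz : z ∈ ball (0:ℂ) 1) (_hz0 : z ≠ 0) :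
    4 * aa / uu z ^ 2 + aa ^ 2 = VV (z ^ 2) ^ 2 := by
  have h1 := one_sub_ne (ball_sq hz)
  have hE := EE_ne hz
  have h4 := EE_pow4 z
  have hk := akk
  rw [VV_eq (ball_sq hz), uu]
  field_simp
  have h5 : EE z ^ 4 = 1 - kk * z ^ 2 := h4
  linear_combination (4 * aa * z ^ 2) * h5 + (4 * z ^ 4) * hk

theorem eq_of_sq_eq_of_re {x y : ℂ} (hx : 0 < x.re) (hy : 0 < y.re) (h : x ^ 2 = y ^ 2) :
    x = y := by
  rcases sq_eq_sq_iff_eq_or_eq_neg.mp h with h | h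
  · exact h
  · exfalso
    rw [h] at hx
    simp at hx
    linarith

theorem EE_congr {z w : ℂ} (h : z ^ 2 = w ^ 2) : EE z = EE w := by
  rw [EE, EE, h]

theorem ff_inj : InjOn ff (ball 0 1) := by
  intro z hz w hw h
  have aux : ∀ z ∈ ball (0:ℂ) 1, ff z = 0 → z = 0 := by
    intro z hz h
    rw [ff, div_eq_zero_iff] at h
    rcases h with h | h
    · exact h
    · exact absurd h (pow_ne_zero _ (hf_ne hz))
  by_cases hz0 : z = 0
  · rw [hz0, ff_zero] at h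
    rw [hz0, aux w hw h.symm]
  by_cases hw0 : w = 0
  · rw [hw0, ff_zero] at h
    rw [hw0, aux z hz h]
  have h1 : uu z = uu w := by
    have e1 := inv_ff hz hz0
    have e2 := inv_ff hw hw0
    rw [h, e2] at e1
    linear_combination -e1
  have h2 : VV (z ^ 2) ^ 2 = VV (w ^ 2) ^ 2 := by
    rw [← VV_sq hz hz0, ← VV_sq hw hw0, h1]
  have h3 := eq_of_sq_eq_of_re (VV_re (ball_sq hz)) (VV_re (ball_sq hw)) h2
  have h4 := VV_inj (ball_sq hz) (ball_sq hw) h3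
  have h5 := EE_congr h4
  rw [uu, uu, h4, h5] at h1
  have hE := EE_ne hw
  have h6 := one_sub_ne (ball_sq hw)
  field_simp at h1
  exact h1.symm

end Pool.Agent.Helper94.Supp
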