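import Mathlib

open Complex Filter Topology

namespace Pool.Agent.Helper94.Supp

/-- coefficients of (1 - y)^(-α) -/
noncomputable def P (α : ℝ) : ℕ → ℝ
  | 0 => 1
  | (n + 1) => P α n * (n + α) / (n + 1)

theorem P_zero (α : ℝ) : P α 0 = 1 := rfl

theorem P_succ (α : ℝ) (n : ℕ) : P α (n + 1) = P α n * (n + α) / (n + 1) := rfl

theorem P_succ' (α : ℝ) (n : ℕ) : ((n:ℝ) + 1) * P α (n + 1) = P α n * (n + α) := by
  rw [P_succ]; field_simp

theorem choose_succ (r : ℝ) (n : ℕ) :
    Ring.choose r (n + 1) = Ring.choose r n * (r - n) / (n + 1) := by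
  have h1 := Ring.descPochhammer_eq_factorial_smul_choose r (n + 1)
  have h2 := Ring.descPochhammer_eq_factorial_smul_choose r n
  rw [descPochhammer_succ_right, Polynomial.smeval_mul, h2] at h1
  rw [Polynomial.smeval_sub, Polynomial.smeval_X, Polynomial.smeval_natCast] at h1
  simp only [nsmul_eq_mul, pow_one, pow_zero, mul_one, Nat.factorial_succ] at h1
  have h3 : ((n.factorial : ℕ):ℝ) ≠ 0 := by exact_mod_cast Nat.factorial_ne_zero n
  have h4 : (n:ℝ) + 1 ≠ 0 := by positivity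
  rw [eq_div_iff h4]
  apply mul_left_cancel₀ h3
  push_cast at h1
  linarith

theorem P_eq (α : ℝ) (n : ℕ) : P α n = (-1) ^ n * Ring.choose (-α) n := by
  induction n with
  | zero => simp [P_zero]
  | succ n ih =>
    rw [P_succ, ih, choose_succ, pow_succ]
    ring

theorem P_hasSum (α : ℝ) {y : ℂ} (hy : ‖y‖ < 1) :
    HasSum (fun n : ℕ => (P α n : ℂ) * y ^ n) ((1 - y) ^ (-(α:ℂ))) := by
  have h := (Complex.one_add_cpow_hasFPowerSeriesOnBall_zero (a := -(α:ℂ))).hasSum
    (y := -y) (by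
      rw [← ENNReal.ofReal_one, Metric.eball_ofReal, mem_ball_zero_iff, norm_neg]
      exact hy)
  simp only [zero_add, binomialSeries_apply, List.ofFn_const, List.prod_replicate, smul_eq_mul] at h
  rw [sub_eq_add_neg]
  refine (show (fun n : ℕ => (P α n : ℂ) * y ^ n)
    = (fun n : ℕ => Ring.choose (-(α:ℂ)) n * (-y) ^ n) from ?_) ▸ h
  ext n
  rw [P_eq, neg_pow y]
  push_cast
  ring

theorem P_hasSum_real (α : ℝ) {t : ℝ} (ht : |t| < 1) :
    HasSum (fun n : ℕ => P α n * t ^ n) ((1 - t) ^ (-α)) := by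
  have h := P_hasSum α (y := (t:ℂ)) (by rw [Complex.norm_real]; exact ht)
  have h1 : ((1:ℂ) - t) ^ (-(α:ℂ)) = (((1 - t) ^ (-α) : ℝ) : ℂ) := by
    rw [Complex.ofReal_cpow (by linarith [(abs_lt.mp ht).2])]
    push_cast; ring_nf
  rw [h1] at h
  have h2 : (fun n : ℕ => (P α n : ℂ) * (t:ℂ) ^ n) = (fun n : ℕ => ((P α n * t ^ n : ℝ) : ℂ)) := by
    ext n; push_cast; ring
  rw [h2] at h
  exact_mod_cast h

theorem abs_P_le {α : ℝ} (h0 : -1 ≤ α) (h1 : α ≤ 1) (n : ℕ) : |P α n| ≤ 1 := by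
  induction n with
  | zero => simp [P_zero]
  | succ n ih =>
    rw [P_succ, abs_div, abs_mul, abs_of_pos (show (0:ℝ) < n + 1 by positivity),
      div_le_one (by positivity)]
    have : |(n:ℝ) + α| ≤ n + 1 := by
      rw [abs_le]; constructor
      · have : (0:ℝ) ≤ n := by positivity
        linarith
      · linarith
    calc |P α n| * |(n:ℝ) + α| ≤ 1 * (n + 1) := by gcongr
      _ = _ := by ring

noncomputable def aseq (m : ℕ) : ℝ := (4 * m + 1) * P (1/4) m ^ 2
noncomputable def bseq (m : ℕ) : ℝ := (1 - 4 * m) * P (-1/4) m ^ 2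

theorem aseq_rec (m : ℕ) : ((m:ℝ) + 1) ^ 2 * aseq (m + 1) = (m + 5/4) * (m + 1/4) * aseq m := by
  have h := P_succ' (1/4) m
  simp only [aseq]
  push_cast
  linear_combination (4 * ((m:ℝ) + 1) + 1) * (((m:ℝ) + 1) * P (1/4) (m + 1) + P (1/4) m * (m + 1/4)) * h

theorem bseq_rec (m : ℕ) : ((m:ℝ) + 1) ^ 2 * bseq (m + 1) = (m + 3/4) * (m - 1/4) * bseq m := by
  have h := P_succ' (-1/4) m
  simp only [bseq]
  push_cast
  linear_combination (1 - 4 * ((m:ℝ) + 1)) * (((m:ℝ) + 1) * P (-1/4) (m + 1) + P (-1/4) m * (m + (-1/4))) * h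

open PowerSeries in
theorem coeff_D (f : PowerSeries ℝ) (n : ℕ) :
    coeff n (PowerSeries.derivative ℝ f) = coeff (n + 1) f * (n + 1) := coeff_derivative f n

open PowerSeries in
theorem coeff_XD (f : PowerSeries ℝ) (n : ℕ) :
    coeff n (X * PowerSeries.derivative ℝ f) = coeff n f * n := by
  cases n with
  | zero => simp [coeff_zero_X_mul]
  | succ n => rw [coeff_succ_X_mul, coeff_D]; push_cast; ring

open PowerSeries in
theorem coeff_XXDD (f : PowerSeries ℝ) (n : ℕ) :
    coeff n (X * (X * PowerSeries.derivative ℝ (PowerSeries.derivative ℝ f)))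
      = coeff n f * n * (n - 1) := by
  cases n with
  | zero => simp [coeff_zero_X_mul]
  | succ n => rw [coeff_succ_X_mul, coeff_XD, coeff_D]; push_cast; ring

open PowerSeries in
theorem coeff_ode (f : PowerSeries ℝ) (p q : ℝ) (n : ℕ) :
    coeff n (X * (1 - X) * PowerSeries.derivative ℝ (PowerSeries.derivative ℝ f)
      + (1 - C p * X) * PowerSeries.derivative ℝ f + C q * f)
      = ((n:ℝ) + 1) ^ 2 * coeff (n + 1) f - (n * (n - 1) + p * n - q) * coeff n f := by
  have e1 : X * (1 - X) * PowerSeries.derivative ℝ (PowerSeries.derivative ℝ f)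
      + (1 - C p * X) * PowerSeries.derivative ℝ f + C q * f
      = X * PowerSeries.derivative ℝ (PowerSeries.derivative ℝ f)
      - X * (X * PowerSeries.derivative ℝ (PowerSeries.derivative ℝ f))
      + PowerSeries.derivative ℝ f - C p * (X * PowerSeries.derivative ℝ f) + C q * f := by ring
  rw [e1]
  simp only [map_add, map_sub, coeff_C_mul]
  rw [coeff_XD, coeff_XXDD, coeff_XD, coeff_D]
  ring

open PowerSeries in
/-- the formal identity -/
theorem formal_identity :
    (PowerSeries.mk (P (1/2))) * (PowerSeries.mk bseq) = PowerSeries.mk aseq := by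
  set S : PowerSeries ℝ := PowerSeries.mk (P (1/2)) with hS
  set B : PowerSeries ℝ := PowerSeries.mk bseq with hB
  set D := PowerSeries.derivative ℝ with hD
  have hS1 : (1 - X) * D S = C (1/2) * S := by
    ext n
    rw [sub_mul, one_mul, map_sub, coeff_D, coeff_XD, coeff_C_mul, hS, coeff_mk, coeff_mk]
    have := P_succ' (1/2) n
    linarith
  have hS2 : (1 - X) * D (D S) = C (3/2) * D S := by
    have h1 := congrArg D hS1
    rw [Derivation.leibniz, Derivation.leibniz] at h1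
    simp only [map_sub, Derivation.map_one_eq_zero, smul_eq_mul] at h1
    have hX : D X = 1 := PowerSeries.derivative_X
    have hC : D (C (1/2:ℝ)) = 0 := PowerSeries.derivative_C
    rw [hX, hC] at h1
    have h3 : (C (3/2 : ℝ) : PowerSeries ℝ) = 1 + C (1/2) := by
      rw [← map_one (C (R := ℝ)), ← map_add]; norm_num
    rw [h3]
    linear_combination h1
  have hB1 : X * (1 - X) * D (D B) + (1 - C (3/2) * X) * D B + C (3/16) * B = 0 := by
    ext n
    rw [coeff_ode, hB, coeff_mk, coeff_mk, map_zero]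
    have := bseq_rec n
    linarith
  set Y := S * B with hY
  have hY1 : D Y = D S * B + S * D B := by
    rw [hY, Derivation.leibniz]; ring
  have hY2 : D (D Y) = D (D S) * B + 2 * D S * D B + S * D (D B) := by
    rw [hY1, map_add, Derivation.leibniz, Derivation.leibniz]; ring
  have hc1 : (C (3/2:ℝ) : PowerSeries ℝ) = 1 + C (1/2) := by
    rw [← map_one (C (R := ℝ)), ← map_add]; norm_num
  have hc2 : (C (5/2:ℝ) : PowerSeries ℝ) = 2 + C (1/2) := by
    have : (2 : PowerSeries ℝ) = C 2 := (map_ofNat (C (R := ℝ)) 2).symm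
    rw [this, ← map_add]; norm_num
  have hc4 : (2 : PowerSeries ℝ) * C (1/2 : ℝ) = 1 := by
    have : (2 : PowerSeries ℝ) = C 2 := (map_ofNat (C (R := ℝ)) 2).symm
    rw [this, ← map_mul]; norm_num
  have hc5 : (C (-5/16:ℝ) : PowerSeries ℝ) = C (3/16) - C (1/2) := by
    rw [← map_sub]; norm_num
  have hY3 : X * (1 - X) * D (D Y) + (1 - C (5/2) * X) * D Y + C (-5/16) * Y = 0 := by
    rw [hY2, hY1, hY, hc5, hc2]
    rw [hc1] at hS2 hB1
    linear_combination S * hB1 + X * B * hS2 + (2 * X * D B + B) * hS1 + X * S * D B * hc4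
  have hrec : ∀ m : ℕ, ((m:ℝ) + 1) ^ 2 * coeff (m + 1) Y = (m + 5/4) * (m + 1/4) * coeff m Y := by
    intro n
    have h := congrArg (coeff n) hY3
    rw [coeff_ode, map_zero] at h
    linarith
  ext m
  rw [coeff_mk]
  induction m with
  | zero => simp [hY, hS, hB, P_zero, aseq, bseq]
  | succ m ih =>
    have h1 := hrec m
    have h2 := aseq_rec m
    have h3 : ((m:ℝ) + 1) ^ 2 ≠ 0 := by positivity
    apply mul_left_cancel₀ h3
    rw [h1, h2, ih]

theorem conv_identity (m : ℕ) :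
    ∑ p ∈ Finset.HasAntidiagonal.antidiagonal m, P (1/2) p.1 * bseq p.2 = aseq m := by
  have h := congrArg (PowerSeries.coeff m) formal_identity
  rw [PowerSeries.coeff_mul, PowerSeries.coeff_mk] at h
  rw [← h]
  refine Finset.sum_congr rfl (fun p _ => ?_)
  rw [PowerSeries.coeff_mk, PowerSeries.coeff_mk]

theorem summable_lin {t : ℝ} (h0 : 0 ≤ t) (h1 : t < 1) :
    Summable (fun m : ℕ => (4 * (m:ℝ) + 1) * t ^ m) := by
  have hn : ‖t‖ < 1 := by rw [Real.norm_eq_abs, abs_of_nonneg h0]; exact h1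
  have e1 := (summable_pow_mul_geometric_of_norm_lt_one 1 hn).mul_left 4
  have e2 := summable_geometric_of_lt_one h0 h1
  refine (e1.add e2).congr (fun m => ?_)
  simp only [pow_one]
  ring

theorem sq_P_le {α : ℝ} (h0 : -1 ≤ α) (h1 : α ≤ 1) (n : ℕ) : P α n ^ 2 ≤ 1 := by
  have := abs_P_le h0 h1 n
  rw [← sq_abs]
  nlinarith [abs_nonneg (P α n)]

theorem abs_aseq_le (m : ℕ) : |aseq m| ≤ 4 * (m:ℝ) + 1 := by
  have h1 := sq_P_le (α := 1/4) (by norm_num) (by norm_num) m
  have h2 := sq_nonneg (P (1/4) m)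
  have hm : (0:ℝ) ≤ m := by positivity
  simp only [aseq]
  rw [abs_of_nonneg (by positivity)]
  nlinarith

theorem abs_bseq_le (m : ℕ) : |bseq m| ≤ 4 * (m:ℝ) + 1 := by
  have h1 := sq_P_le (α := -1/4) (by norm_num) (by norm_num) m
  have h2 := sq_nonneg (P (-1/4) m)
  have hm : (0:ℝ) ≤ m := by positivity
  simp only [bseq]
  rw [abs_mul, abs_of_nonneg h2]
  have : |1 - 4 * (m:ℝ)| ≤ 4 * m + 1 := by
    rw [abs_le]; constructor <;> linarith
  calc |1 - 4 * (m:ℝ)| * P (-1/4) m ^ 2 ≤ (4 * m + 1) * 1 := by gcongr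
    _ = _ := by ring

theorem summable_aseq {t : ℝ} (h0 : 0 ≤ t) (h1 : t < 1) : Summable (fun m => aseq m * t ^ m) := by
  refine Summable.of_norm_bounded (summable_lin h0 h1) (fun m => ?_)
  rw [norm_mul, norm_pow, Real.norm_eq_abs, Real.norm_eq_abs, abs_of_nonneg h0]
  exact mul_le_mul_of_nonneg_right (abs_aseq_le m) (by positivity)

theorem summable_bseq {t : ℝ} (h0 : 0 ≤ t) (h1 : t < 1) : Summable (fun m => bseq m * t ^ m) := by
  refine Summable.of_norm_bounded (summable_lin h0 h1) (fun m => ?_)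
  rw [norm_mul, norm_pow, Real.norm_eq_abs, Real.norm_eq_abs, abs_of_nonneg h0]
  exact mul_le_mul_of_nonneg_right (abs_bseq_le m) (by positivity)

theorem hyper_identity {t : ℝ} (h0 : 0 ≤ t) (h1 : t < 1) :
    ∑' m, aseq m * t ^ m = (1 - t) ^ (-(1/2) : ℝ) * ∑' m, bseq m * t ^ m := by
  have hS := P_hasSum_real (1/2) (t := t) (by rw [abs_of_nonneg h0]; exact h1)
  have hB := summable_bseq h0 h1
  rw [← hS.tsum_eq]
  rw [tsum_mul_tsum_eq_tsum_sum_antidiagonal_of_summable_norm hS.summable.norm hB.norm]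
  refine tsum_congr (fun m => ?_)
  rw [← conv_identity, Finset.sum_mul]
  refine Finset.sum_congr rfl (fun p hp => ?_)
  rw [← Finset.HasAntidiagonal.mem_antidiagonal.mp hp, pow_add]
  ring

end Pool.Agent.Helper94.Supp
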