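import Pool.Agent.Helper94.Supp.Defs

open Complex Metric Set Filter Topology

namespace Pool.Agent.Helper94.Supp

theorem OmittedArc.closedEmbedding {f : HD} {w : ℝ → ℂ} (h : OmittedArc f w) :
    Topology.IsClosedEmbedding (fun x : NNReal => w x) := by
  have hcont : Continuous (fun x : NNReal => w x) := by
    have h1 : ContinuousOn w (Ici 0) := fun t ht => (h.analytic t ht).continuousAt.continuousWithinAt
    exact h1.comp_continuous NNReal.continuous_coe (fun x => x.2)
  have hinj : Function.Injective (fun x : NNReal => w x) := by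
    intro x y hxy
    exact NNReal.coe_injective (h.injective x.2 y.2 hxy)
  have hproper : IsProperMap (fun x : NNReal => w x) := by
    rw [isProperMap_iff_tendsto_cocompact]
    refine ⟨hcont, ?_⟩
    rw [cocompact_eq_atTop (α := NNReal)]
    exact h.to_infinity.comp (NNReal.tendsto_coe_atTop.mpr tendsto_id)
  exact Topology.IsClosedEmbedding.of_continuous_injective_isClosedMap hcont hinj
    hproper.isClosedMap

/-- two parametrisations of the same omitted arc differ by a strictly monotone change of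
parameter -/
theorem OmittedArc.reparam {f : HD} {w₁ w₂ : ℝ → ℂ} (h₁ : OmittedArc f w₁)
    (h₂ : OmittedArc f w₂) : ∃ φ : NNReal → NNReal, Continuous φ ∧ StrictMono φ ∧
      Function.Surjective φ ∧ ∀ x : NNReal, w₁ x = w₂ (φ x) := by
  have e1 := h₁.closedEmbedding
  have e2 := h₂.closedEmbedding
  have hex : ∀ x : NNReal, ∃ y : NNReal, w₂ y = w₁ x := by
    intro x
    have : w₁ x ∈ w₂ '' Ici 0 := by
      rw [h₂.image_eq, ← h₁.image_eq]
      exact ⟨x, x.2, rfl⟩
    obtain ⟨y, hy, hy'⟩ := this
    exact ⟨⟨y, hy⟩, hy'⟩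
  choose φ hφ using hex
  have hc : Continuous φ := by
    rw [e2.isInducing.continuous_iff]
    refine e1.continuous.congr (fun x => ?_)
    exact (hφ x).symm
  have hi : Function.Injective φ := by
    intro x y hxy
    apply e1.injective
    change w₁ x = w₁ y
    rw [← hφ x, ← hφ y, hxy]
  have hs : Function.Surjective φ := by
    intro y
    have : w₂ y ∈ w₁ '' Ici 0 := by
      rw [h₁.image_eq, ← h₂.image_eq]
      exact ⟨y, y.2, rfl⟩
    obtain ⟨x, hx, hx'⟩ := this
    refine ⟨⟨x, hx⟩, e2.injective ?_⟩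
    rw [hφ]
    exact hx'
  refine ⟨φ, hc, ?_, hs, fun x => (hφ x).symm⟩
  rcases hc.strictMono_of_inj hi with h | h
  · exact h
  · exfalso
    obtain ⟨x, hx⟩ := hs (φ 0 + 1)
    have := h.antitone (show (0:NNReal) ≤ x from bot_le)
    rw [hx] at this
    have h2 : φ 0 < φ 0 + 1 := lt_add_of_pos_right _ one_pos
    exact absurd this (not_le.mpr h2)

theorem MonotonicArgument.transfer {f : HD} {w₁ w₂ : ℝ → ℂ} (h₁ : OmittedArc f w₁)
    (h₂ : OmittedArc f w₂) (h : MonotonicArgument w₂) : MonotonicArgument w₁ := by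
  obtain ⟨φ, hc, hm, _, hw⟩ := h₁.reparam h₂
  obtain ⟨θ, hθc, hθ, hθm⟩ := h
  refine ⟨fun t => θ (φ t.toNNReal), ?_, ?_, ?_⟩
  · refine hθc.comp ?_ (fun t _ => (φ t.toNNReal).2)
    exact (NNReal.continuous_coe.comp (hc.comp continuous_real_toNNReal)).continuousOn
  · intro t ht
    have h1 := hw t.toNNReal
    rw [Real.coe_toNNReal t ht] at h1
    rw [h1]
    exact hθ _ (φ t.toNNReal).2
  · have hmono : ∀ s t : ℝ, s ≤ t → (φ s.toNNReal : ℝ) ≤ φ t.toNNReal := fun s t hst =>
      NNReal.coe_le_coe.mpr (hm.monotone (Real.toNNReal_le_toNNReal hst))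
    rcases hθm with h | h
    · left
      intro s _ t _ hst
      exact h (φ s.toNNReal).2 (φ t.toNNReal).2 (hmono s t hst)
    · right
      intro s _ t _ hst
      exact h (φ s.toNNReal).2 (φ t.toNNReal).2 (hmono s t hst)

end Pool.Agent.Helper94.Supp
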