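import Pool.Agent.Helper94.Supp.Support
import Pool.Agent.Helper94.Supp.Reparam

open Complex Metric Set Filter Topology

namespace Pool.Agent.Helper94.Supp

theorem YC_real {σ : ℝ} (hσ : |σ| ≤ 2) (him : (YC σ).im = 0) : σ = 0 ∨ σ ^ 2 = 1 := by
  set r := (YC σ).re with hr
  have hY : YC σ = (r : ℂ) := by
    apply Complex.ext
    · simp [hr]
    · simp [him]
  have hD := DC_ne hσ
  have h1 := YC_sq σ
  rw [hY, eq_div_iff hD] at h1
  have h2 : aa ^ 2 = (1 - (ss ^ 2 : ℝ)) - (2 * ss : ℝ) * I := by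
    have := aa_sq
    linear_combination this
  have hDe : DC (σ:ℂ) = 1 + (aa ^ 2 - 1) * (σ:ℂ) ^ 2 := rfl
  rw [hDe, h2] at h1
  have hre := congrArg Complex.re h1
  have him2 := congrArg Complex.im h1
  simp [pow_two] at hre him2
  have hs := ss_pos
  have h3 : σ * σ * (r * r - 1) = 0 := by
    have : 2 * ss * (σ * σ * (r * r - 1)) = 0 := by nlinarith
    rcases mul_eq_zero.mp this with h | h
    · exfalso; linarith
    · exact h
  rcases mul_eq_zero.mp h3 with h | h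
  · left
    exact mul_self_eq_zero.mp h
  · right
    have h4 : r * r = 1 := by linarith
    rw [h4] at hre
    nlinarith

theorem wArc_div (t : ℝ) (ht : 0 ≤ t) :
    wArc t = wArc 0 * (2 / (1 - YC (((t - 1) / (t + 1) : ℝ) : ℂ))) := by
  obtain ⟨h1, h2⟩ := sig_mem ht
  have h3 := YC_ne_one h1 h2
  have h4 : 1 - YC (((t - 1) / (t + 1) : ℝ) : ℂ) ≠ 0 := by
    intro h; apply h3; linear_combination -h
  have h5 := pp_ne
  have h6 := Complex.I_ne_zero
  have e0 : wArc 0 = 1 / (2 * I * pp * (-2)) := by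
    rw [wArc, WC]
    have : (((0:ℝ) - 1) / (0 + 1) : ℝ) = -1 := by norm_num
    rw [this]
    push_cast
    rw [YC_neg_one]
    norm_num
  rw [e0, wArc, WC]
  field_simp
  ring

theorem wArc_one : wArc 1 = 2 * wArc 0 := by
  rw [wArc_div 1 (by norm_num)]
  have : (((1:ℝ) - 1) / (1 + 1) : ℝ) = 0 := by norm_num
  rw [this]
  have : YC ((0:ℝ):ℂ) = 0 := by simp [YC]
  rw [this]
  ring

/-- the ratio is never a negative real on [0,1] -/
theorem ratio_not_neg {t : ℝ} (h0 : 0 ≤ t) (h1 : t ≤ 1) {r : ℝ} (hr : 0 < r)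
    (h : wArc t = wArc 0 * (-(r:ℂ))) : False := by
  obtain ⟨m1, m2⟩ := sig_mem h0
  have hd := wArc_div t h0
  rw [h] at hd
  have h2 := mul_left_cancel₀ (wArc_ne le_rfl) hd
  set σ : ℝ := (t - 1) / (t + 1) with hσ
  have hσ0 : σ ≤ 0 := by
    rw [hσ]
    exact div_nonpos_of_nonpos_of_nonneg (by linarith) (by linarith)
  have h3 := YC_ne_one m1 m2
  have h4 : 1 - YC (σ : ℂ) ≠ 0 := by
    intro h; apply h3; linear_combination -h
  rw [eq_div_iff h4] at h2
  have hr0 : (r:ℂ) ≠ 0 := by exact_mod_cast hr.ne'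
  have h5 : YC (σ:ℂ) = ((1 + 2 / r : ℝ) : ℂ) := by
    push_cast
    field_simp
    linear_combination h2
  have him : (YC (σ:ℂ)).im = 0 := by rw [h5]; exact Complex.ofReal_im _
  have habs : |σ| ≤ 2 := sig_abs h0
  rcases YC_real habs him with h | h
  · rw [h] at h5
    have : YC ((0:ℝ):ℂ) = 0 := by simp [YC]
    rw [this] at h5
    have h6 : (0:ℝ) = 1 + 2 / r := by exact_mod_cast h5
    have : 0 < 2 / r := by positivity
    linarith
  · have h6 : σ = -1 := by nlinarith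
    rw [h6] at h5
    push_cast at h5
    rw [YC_neg_one] at h5
    have h7 : (-1:ℝ) = 1 + 2 / r := by
      have : ((-1:ℝ):ℂ) = ((1 + 2 / r : ℝ) : ℂ) := by push_cast; exact h5
      exact_mod_cast this
    have : 0 < 2 / r := by positivity
    linarith

theorem ratio_third_not_pos {r : ℝ} (hr : 0 < r) (h : wArc (1/3) = wArc 0 * (r:ℂ)) : False := by
  have hd := wArc_div (1/3) (by norm_num)
  rw [h] at hd
  have h2 := mul_left_cancel₀ (wArc_ne le_rfl) hd
  have e : (((1/3:ℝ) - 1) / (1/3 + 1) : ℝ) = -(1/2) := by norm_num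
  rw [e] at h2
  have h3 := YC_ne_one (σ := -(1/2)) (by norm_num) (by norm_num)
  have h4 : 1 - YC ((-(1/2) : ℝ) : ℂ) ≠ 0 := by
    intro h; apply h3; linear_combination -h
  rw [eq_div_iff h4] at h2
  have hr0 : (r:ℂ) ≠ 0 := by exact_mod_cast hr.ne'
  have h5 : YC ((-(1/2) : ℝ) : ℂ) = ((1 - 2 / r : ℝ) : ℂ) := by
    push_cast at h2 ⊢
    field_simp
    linear_combination -h2
  have him : (YC ((-(1/2) : ℝ) : ℂ)).im = 0 := by rw [h5]; exact Complex.ofReal_im _
  rcases YC_real (σ := -(1/2)) (by rw [abs_le]; constructor <;> norm_num) him with h | h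
  · norm_num at h
  · norm_num at h

theorem wArc_not_monotonic : ¬ MonotonicArgument wArc := by
  rintro ⟨θ, hc, hθ, hm⟩
  have hn : ∀ t : ℝ, 0 ≤ t → 0 < ‖wArc t‖ := fun t ht => norm_pos_iff.mpr (wArc_ne ht)
  have hn0 := hn 0 le_rfl
  -- general relation
  have hrel : ∀ t : ℝ, 0 ≤ t → wArc t = wArc 0 * (((‖wArc t‖ / ‖wArc 0‖ : ℝ) : ℂ) *
      exp (((θ t - θ 0 : ℝ) : ℂ) * I)) := by
    intro t ht
    have e1 := hθ t ht
    have e0 := hθ 0 (Set.mem_Ici.mpr le_rfl)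
    have hne : (‖wArc 0‖ : ℂ) ≠ 0 := by exact_mod_cast hn0.ne'
    have hx : exp ((θ t : ℂ) * I) = exp ((θ 0 : ℂ) * I) * exp (((θ t - θ 0 : ℝ) : ℂ) * I) := by
      rw [← Complex.exp_add]; congr 1; push_cast; ring
    calc wArc t = (‖wArc t‖ : ℂ) * exp ((θ t : ℂ) * I) := e1
      _ = ((‖wArc 0‖ : ℂ) * exp ((θ 0 : ℂ) * I)) * (((‖wArc t‖ / ‖wArc 0‖ : ℝ) : ℂ) *
      exp (((θ t - θ 0 : ℝ) : ℂ) * I)) := by
          rw [hx]; push_cast; field_simp
      _ = _ := by rw [← e0]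
  -- θ 1 - θ 0 is a multiple of 2 π
  have h1 := hrel 1 zero_le_one
  rw [wArc_one] at h1
  have h1' : exp (((θ 1 - θ 0 : ℝ) : ℂ) * I) = 1 := by
    have e : ‖2 * wArc 0‖ / ‖wArc 0‖ = 2 := by
      rw [norm_mul]; simp; field_simp
    rw [e] at h1
    have h2 : wArc 0 * (2 * exp (((θ 1 - θ 0 : ℝ) : ℂ) * I)) = wArc 0 * 2 := by
      push_cast at h1 ⊢
      linear_combination -h1
    have h3 := mul_left_cancel₀ (wArc_ne le_rfl) h2
    have h4 : (2:ℂ) * exp (((θ 1 - θ 0 : ℝ) : ℂ) * I) = 2 * 1 := by rw [h3]; ring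
    exact mul_left_cancel₀ two_ne_zero h4
  -- no point with difference ± π
  have hno : ∀ t : ℝ, 0 ≤ t → t ≤ 1 → θ t - θ 0 ≠ Real.pi ∧ θ t - θ 0 ≠ -Real.pi := by
    intro t ht0 ht1
    have hpos : 0 < ‖wArc t‖ / ‖wArc 0‖ := div_pos (hn t ht0) hn0
    constructor
    · intro h
      have e := hrel t ht0
      rw [h, Complex.exp_pi_mul_I] at e
      exact ratio_not_neg ht0 ht1 hpos (e.trans (by ring))
    · intro h
      have e := hrel t ht0
      have h2 : exp (((-Real.pi : ℝ) : ℂ) * I) = -1 := by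
        rw [show (((-Real.pi : ℝ) : ℂ) * I) = -(Real.pi * I) by push_cast; ring,
          Complex.exp_neg, Complex.exp_pi_mul_I]
        norm_num
      rw [h, h2] at e
      exact ratio_not_neg ht0 ht1 hpos (e.trans (by ring))
  have hcI : ContinuousOn (fun t => θ t - θ 0) (Icc 0 1) :=
    (hc.mono Icc_subset_Ici_self).sub continuousOn_const
  obtain ⟨k, hk⟩ := Complex.exp_eq_one_iff.mp h1'
  have hk' : θ 1 - θ 0 = k * (2 * Real.pi) := by
    have h2 : ((θ 1 - θ 0 : ℝ) : ℂ) * I = ((k * (2 * Real.pi) : ℝ) : ℂ) * I := by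
      rw [hk]; push_cast; ring
    exact_mod_cast mul_right_cancel₀ Complex.I_ne_zero h2
  have hpi := Real.pi_pos
  have heq : θ 1 = θ 0 := by
    rcases lt_trichotomy k 0 with hk0 | hk0 | hk0
    · exfalso
      have hk1 : (k:ℝ) ≤ -1 := by exact_mod_cast Int.le_sub_one_of_lt hk0
      have hle : θ 1 - θ 0 ≤ -Real.pi := by rw [hk']; nlinarith
      have hmem : -Real.pi ∈ Icc (θ 1 - θ 0) (θ 0 - θ 0) := ⟨hle, by linarith⟩
      obtain ⟨t, ht, ht'⟩ := intermediate_value_Icc' zero_le_one hcI hmem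
      exact (hno t ht.1 ht.2).2 ht'
    · rw [hk0] at hk'
      simp at hk'
      linarith
    · exfalso
      have hk1 : (1:ℝ) ≤ k := by exact_mod_cast hk0
      have hle : Real.pi ≤ θ 1 - θ 0 := by rw [hk']; nlinarith
      have hmem : Real.pi ∈ Icc (θ 0 - θ 0) (θ 1 - θ 0) := ⟨by linarith, hle⟩
      obtain ⟨t, ht, ht'⟩ := intermediate_value_Icc zero_le_one hcI hmem
      exact (hno t ht.1 ht.2).1 ht'
  -- hence θ (1/3) = θ 0
  have h13 : θ (1/3) = θ 0 := by
    have m0 : (0:ℝ) ∈ Ici (0:ℝ) := Set.mem_Ici.mpr le_rfl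
    have m1 : (1:ℝ) ∈ Ici (0:ℝ) := Set.mem_Ici.mpr zero_le_one
    have m3 : (1/3:ℝ) ∈ Ici (0:ℝ) := Set.mem_Ici.mpr (by norm_num)
    rcases hm with hm | hm
    · have a := hm m0 m3 (by norm_num)
      have b := hm m3 m1 (by norm_num)
      linarith
    · have a := hm m0 m3 (by norm_num)
      have b := hm m3 m1 (by norm_num)
      linarith
  have h2 := hrel (1/3) (by norm_num)
  rw [h13, sub_self] at h2
  have hpos : 0 < ‖wArc (1/3)‖ / ‖wArc 0‖ := div_pos (hn _ (by norm_num)) hn0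
  exact ratio_third_not_pos hpos (h2.trans (by simp))

theorem q1_main : ∃ f : HD, IsSupportPoint f ∧ (∃ w, OmittedArc f w) ∧
    ∀ w, OmittedArc f w → ¬ MonotonicArgument w :=
  ⟨fHD, fHD_isSupportPoint, ⟨wArc, wArc_omitted⟩, fun _ hw h =>
    wArc_not_monotonic (h.transfer wArc_omitted hw)⟩

end Pool.Agent.Helper94.Supp
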