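import Pool.Agent.Helper94.Supp.Arc

open MeasureTheory Complex Metric Set Filter Topology
open Pool.Agent.Helper94.Area

namespace Pool.Agent.Helper94.Supp

theorem c_ne : (2 * I * pp) ≠ 0 := mul_ne_zero (mul_ne_zero two_ne_zero Complex.I_ne_zero) pp_ne

theorem c_sq : aa * (2 * I * pp) ^ 2 = -4 := by
  have h1 := pp_sq
  have h2 := aa_ne
  have hI : I ^ 2 = -1 := Complex.I_sq
  have h3 : aa * pp ^ 2 = 1 := by rw [h1]; field_simp
  linear_combination (-4) * h3 + 4 * aa * pp ^ 2 * hI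

/-- the arc avoids the image -/
theorem arc_not_mem {t : ℝ} (ht : 0 ≤ t) {z : ℂ} (hz : z ∈ ball (0:ℂ) 1) : ff z ≠ wArc t := by
  intro h
  have hw := wArc_ne ht
  have hz0 : z ≠ 0 := by
    intro h0
    rw [h0, ff_zero] at h
    exact hw h.symm
  set σ : ℝ := (t - 1) / (t + 1) with hσ
  have habs := sig_abs ht
  obtain ⟨m1, m2⟩ := sig_mem ht
  rw [← hσ] at habs m1 m2
  have h1 : uu z = 2 * I * pp * YC σ := by
    have e1 := inv_ff hz hz0
    rw [h, wArc_inv ht, ← hσ] at e1
    linear_combination -e1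
  have hu := uu_ne hz hz0
  have hσ0 : σ ≠ 0 := by
    intro h0
    apply hu
    rw [h1, h0]
    simp [YC]
  have hσ0' : (σ:ℂ) ≠ 0 := by exact_mod_cast hσ0
  have hD := DC_ne habs
  have ha := aa_ne
  have hV := VV_sq hz hz0
  have h2 : 4 * aa / uu z ^ 2 + aa ^ 2 = (((σ ^ 2 - 1) / σ ^ 2 : ℝ) : ℂ) := by
    rw [h1, mul_pow, YC_sq]
    have hc := c_sq
    have hc0 : (2 * I * pp) ^ 2 ≠ 0 := pow_ne_zero _ c_ne
    have hc2 : (2 * I * pp) ^ 2 = -4 / aa := by
      rw [eq_div_iff ha]; linear_combination hc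
    rw [hc2]
    push_cast
    have hDe : DC (σ:ℂ) = 1 + (aa ^ 2 - 1) * (σ:ℂ) ^ 2 := rfl
    field_simp
    linear_combination (-1) * hDe
  rw [h2] at hV
  have hre := VV_re (ball_sq hz)
  set x := VV (z ^ 2) with hx
  have him : (x ^ 2).im = 0 := by rw [← hV]; exact Complex.ofReal_im _
  have hrr : (x ^ 2).re ≤ 0 := by
    rw [← hV, Complex.ofReal_re]
    have : σ ^ 2 ≤ 1 := by nlinarith
    exact div_nonpos_of_nonpos_of_nonneg (by linarith) (sq_nonneg _)
  rw [pow_two] at him hrr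
  simp only [Complex.mul_im, Complex.mul_re] at him hrr
  have h5 : x.im = 0 := by
    have : x.re * x.im = 0 := by linarith
    rcases mul_eq_zero.mp this with h | h
    · linarith
    · exact h
  rw [h5] at hrr
  nlinarith

/-- everything else is attained -/
theorem mem_or_arc {w : ℂ} (hw : ∀ z ∈ ball (0:ℂ) 1, ff z ≠ w) : ∃ t : ℝ, 0 ≤ t ∧ wArc t = w := by
  have hw0 : w ≠ 0 := by
    intro h
    exact hw 0 (by simp) (by rw [ff_zero, h])
  have ha := aa_ne
  have hc := c_ne
  -- it suffices to find σ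
  suffices H : ∃ σ : ℝ, -1 ≤ σ ∧ σ < 1 ∧ w⁻¹ = 2 * I * pp * (YC σ - 1) by
    obtain ⟨σ, h1, h2, h3⟩ := H
    have h4 : 0 < 1 - σ := by linarith
    have ht : 0 ≤ (1 + σ) / (1 - σ) := div_nonneg (by linarith) h4.le
    refine ⟨(1 + σ) / (1 - σ), ht, ?_⟩
    apply inv_injective
    rw [wArc_inv ht, h3]
    have : ((1 + σ) / (1 - σ) - 1) / ((1 + σ) / (1 - σ) + 1) = σ := by
      field_simp
      ring
    rw [this]
  set U := w⁻¹ + 2 * I * pp with hU
  by_cases hU0 : U = 0
  · refine ⟨0, by norm_num, by norm_num, ?_⟩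
    have : YC ((0:ℝ):ℂ) = 0 := by simp [YC]
    rw [this]
    linear_combination hU0 - hU
  set X := 4 * aa / U ^ 2 + aa ^ 2 with hX
  by_cases hXs : X ∈ slitPlane
  · exfalso
    set V0 := X ^ (1/2 : ℂ) with hV0
    have hV0re : 0 < V0.re := sqrt_re_pos hXs
    have hV0sq : V0 ^ 2 = X := sqrt_sq' X
    have hden : V0 + (2 - aa) ≠ 0 := by
      intro h
      have := congrArg Complex.re h
      simp [aa_re] at this
      linarith
    set Z := (V0 - aa) / (V0 + (2 - aa)) with hZ
    have hZb : Z ∈ ball (0:ℂ) 1 := by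
      rw [mem_ball_zero_iff, hZ, norm_div, div_lt_one (norm_pos_iff.mpr hden)]
      have : ‖V0 - aa‖ ^ 2 < ‖V0 + (2 - aa)‖ ^ 2 := by
        rw [← Complex.normSq_eq_norm_sq, ← Complex.normSq_eq_norm_sq, Complex.normSq_apply,
          Complex.normSq_apply]
        simp only [Complex.sub_re, Complex.sub_im, Complex.add_re, Complex.add_im, aa_re, aa_im]
        norm_num
        nlinarith
      exact lt_of_pow_lt_pow_left₀ 2 (norm_nonneg _) this
    have h1Z := one_sub_ne hZb
    have hVZ : VV Z = V0 := by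
      rw [VV_eq hZb, div_eq_iff h1Z]
      have hZ' : Z * (V0 + (2 - aa)) = V0 - aa := by
        rw [hZ, div_mul_cancel₀ _ hden]
      linear_combination hZ'
    have hZ0 : Z ≠ 0 := by
      intro h
      have h2 : V0 - aa = 0 := by
        rcases div_eq_zero_iff.mp (hZ.symm.trans h) with h | h
        · exact h
        · exact absurd h hden
      have h3 : V0 = aa := by linear_combination h2
      rw [h3] at hV0sq
      have h4 : 4 * aa / U ^ 2 = 0 := by linear_combination -hV0sq - hX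
      rw [div_eq_zero_iff] at h4
      rcases h4 with h | h
      · exact ha (by simpa using h)
      · exact hU0 (by simpa using h)
    -- square root of Z
    set z0 := Z ^ (1/2 : ℂ) with hz0def
    have hz0sq : z0 ^ 2 = Z := sqrt_sq' Z
    have hz0 : z0 ≠ 0 := by
      intro h
      rw [h] at hz0sq
      apply hZ0; rw [← hz0sq]; norm_num
    have hz0b : z0 ∈ ball (0:ℂ) 1 := by
      rw [mem_ball_zero_iff] at hZb ⊢
      rw [← hz0sq, norm_pow] at hZb
      by_contra hcon
      push Not at hcon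
      have := one_le_pow₀ hcon (n := 2)
      linarith
    have hnz0b : -z0 ∈ ball (0:ℂ) 1 := by
      rw [mem_ball_zero_iff, norm_neg]; exact mem_ball_zero_iff.mp hz0b
    have hu2 : uu z0 ^ 2 = U ^ 2 := by
      have e1 := VV_sq hz0b hz0
      rw [hz0sq, hVZ, hV0sq, hX] at e1
      have e2 : 4 * aa / uu z0 ^ 2 = 4 * aa / U ^ 2 := by linear_combination e1
      have hu := uu_ne hz0b hz0
      rw [div_eq_div_iff (pow_ne_zero _ hu) (pow_ne_zero _ hU0)] at e2
      have h4 : (4 * aa) ≠ 0 := mul_ne_zero (by norm_num) ha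
      exact (mul_left_cancel₀ h4 e2).symm
    have hodd : uu (-z0) = -uu z0 := by
      have : EE (-z0) = EE z0 := EE_congr (by ring)
      rw [uu, uu, this]
      ring
    have hfin : ∀ z ∈ ball (0:ℂ) 1, z ≠ 0 → uu z = U → False := by
      intro z hz hzz hu
      apply hw z hz
      apply inv_injective
      rw [inv_ff hz hzz, hu, hU]
      ring
    rcases sq_eq_sq_iff_eq_or_eq_neg.mp hu2 with h | h
    · exact hfin z0 hz0b hz0 h
    · refine hfin (-z0) hnz0b (neg_ne_zero.mpr hz0) ?_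
      rw [hodd, h, neg_neg]
  · -- X is a nonpositive real number
    rw [Complex.mem_slitPlane_iff] at hXs
    push Not at hXs
    obtain ⟨hXre, hXim⟩ := hXs
    set T : ℝ := -X.re with hT
    have hT0 : 0 ≤ T := by linarith
    have hXT : X = -(T:ℂ) := by
      apply Complex.ext
      · simp [hT]
      · simp [hXim]
    set σ : ℝ := 1 / Real.sqrt (1 + T) with hσ
    have hsq : Real.sqrt (1 + T) ^ 2 = 1 + T := Real.sq_sqrt (by linarith)
    have hs1 : 1 ≤ Real.sqrt (1 + T) := by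
      rw [Real.one_le_sqrt]; linarith
    have hσ0 : 0 < σ := by rw [hσ]; positivity
    have hσ1 : σ ≤ 1 := by
      rw [hσ, div_le_one (by linarith)]; exact hs1
    have hσsq : σ ^ 2 * (1 + T) = 1 := by
      rw [hσ, div_pow, hsq, one_pow]
      have : 1 + T ≠ 0 := by linarith
      field_simp
    have habs : |σ| ≤ 2 := by rw [abs_of_pos hσ0]; linarith
    have hD := DC_ne habs
    have hσsqC : (σ:ℂ) ^ 2 * (1 + (T:ℂ)) = 1 := by exact_mod_cast hσsq
    have hDe : DC (σ:ℂ) = 1 + (aa ^ 2 - 1) * (σ:ℂ) ^ 2 := rfl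
    have hU2 : U ^ 2 * (aa ^ 2 + T) = -4 * aa := by
      have e1 : 4 * aa / U ^ 2 + aa ^ 2 = -(T:ℂ) := by rw [← hX, hXT]
      have e2 : 4 * aa / U ^ 2 = -(aa ^ 2 + T) := by linear_combination e1
      rw [div_eq_iff (pow_ne_zero _ hU0)] at e2
      linear_combination e2
    have hU3 : U ^ 2 = (2 * I * pp * YC σ) ^ 2 := by
      rw [mul_pow _ (YC σ), YC_sq]
      have hcc := c_sq
      have h5 : DC (σ:ℂ) = (σ:ℂ) ^ 2 * (aa ^ 2 + T) := by
        rw [hDe]; linear_combination -hσsqC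
      have h6 : (aa ^ 2 + (T:ℂ)) ≠ 0 := by
        intro h
        rw [h, mul_zero] at h5
        exact hD h5
      have h7 : (σ:ℂ) ≠ 0 := by exact_mod_cast hσ0.ne'
      rw [h5]
      field_simp
      linear_combination hU2 - aa * hcc
    have hfin : ∀ τ : ℝ, -1 ≤ τ → τ ≤ 1 → U = 2 * I * pp * YC τ →
        ∃ σ : ℝ, -1 ≤ σ ∧ σ < 1 ∧ w⁻¹ = 2 * I * pp * (YC σ - 1) := by
      intro τ h1 h2 h3
      have h4 : w⁻¹ = 2 * I * pp * (YC τ - 1) := by linear_combination h3 - hU
      refine ⟨τ, h1, lt_of_le_of_ne h2 ?_, h4⟩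
      intro h5
      rw [h5, Complex.ofReal_one, YC_one] at h4
      have : w⁻¹ = 0 := by rw [h4]; ring
      exact hw0 (inv_eq_zero.mp this)
    rcases sq_eq_sq_iff_eq_or_eq_neg.mp hU3 with h | h
    · exact hfin σ (by linarith) hσ1 h
    · refine hfin (-σ) (by linarith) (by linarith) ?_
      rw [Complex.ofReal_neg, YC_odd, h]
      ring

end Pool.Agent.Helper94.Supp
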