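import Pool.Agent.Helper94.Area.Thm

open MeasureTheory Complex Metric Set Filter Topology
open Pool.Agent.Helper94.Area

namespace Pool.Agent.Helper94.Supp

theorem exists_log_ball {v : ℂ → ℂ} (hv : DifferentiableOn ℂ v (ball 0 1))
    (hne : ∀ z ∈ ball (0:ℂ) 1, v z ≠ 0) (h0 : v 0 = 1) :
    ∃ F : ℂ → ℂ, DifferentiableOn ℂ F (ball 0 1) ∧ F 0 = 0 ∧ ∀ z ∈ ball (0:ℂ) 1,
      v z = exp (F z) := by
  have hd : DifferentiableOn ℂ (fun z => deriv v z / v z) (ball 0 1) :=
    (hv.deriv isOpen_ball).div hv hne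
  obtain ⟨F0, hF0⟩ := hd.isExactOn_ball
  set F : ℂ → ℂ := fun z => F0 z - F0 0 with hF
  have hFd : ∀ z ∈ ball (0:ℂ) 1, HasDerivAt F (deriv v z / v z) z := fun z hz =>
    (hF0 z hz).sub_const _
  refine ⟨F, fun z hz => (hFd z hz).differentiableAt.differentiableWithinAt, by simp [hF],
    fun z hz => ?_⟩
  set w : ℂ → ℂ := fun z => v z * exp (-F z) with hw
  have hwd : ∀ z ∈ ball (0:ℂ) 1, HasDerivAt w 0 z := by
    intro z hz
    have h1 : HasDerivAt v (deriv v z) z :=
      (hv.differentiableAt (isOpen_ball.mem_nhds hz)).hasDerivAt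
    have h2 := h1.mul ((hFd z hz).neg.cexp)
    refine (show HasDerivAt w _ z from h2).congr_deriv ?_
    have := hne z hz
    simp only [Pi.neg_apply]
    field_simp
    ring
  have hc : w z = w 0 := by
    refine IsOpen.is_const_of_deriv_eq_zero isOpen_ball (convex_ball (0:ℂ) 1).isPreconnected
      (fun z hz => (hwd z hz).differentiableAt.differentiableWithinAt)
      (fun z hz => (hwd z hz).deriv) hz (by simp)
  simp only [hw] at hc
  have hF00 : F 0 = 0 := by simp [hF]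
  rw [h0, hF00, neg_zero, Complex.exp_zero, mul_one, Complex.exp_neg] at hc
  have : exp (F z) ≠ 0 := Complex.exp_ne_zero _
  field_simp at hc
  exact hc

theorem exists_root {G : ℂ → ℂ} (hG : DifferentiableOn ℂ G (ball 0 1))
    (hinj : InjOn G (ball 0 1)) (h0 : G 0 = 0) (h1 : deriv G 0 = 1) :
    ∃ h : ℂ → ℂ, DifferentiableOn ℂ h (ball 0 1) ∧ h 0 = 1 ∧ (∀ z ∈ ball (0:ℂ) 1, h z ≠ 0) ∧
      ∀ z ∈ ball (0:ℂ) 1, G z = z / h z ^ 2 := by
  set u : ℂ → ℂ := dslope G 0 with hu
  have hud : DifferentiableOn ℂ u (ball 0 1) := by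
    rw [hu, Complex.differentiableOn_dslope (isOpen_ball.mem_nhds (by simp))]
    exact hG
  have hu0 : u 0 = 1 := by rw [hu, dslope_same, h1]
  have huz : ∀ z, z ≠ 0 → u z = G z / z := by
    intro z hz
    rw [hu, dslope_of_ne _ hz, slope_def_field, h0, sub_zero, sub_zero]
  have hune : ∀ z ∈ ball (0:ℂ) 1, u z ≠ 0 := by
    intro z hz
    by_cases hz0 : z = 0
    · rw [hz0, hu0]; exact one_ne_zero
    · rw [huz z hz0]
      refine div_ne_zero ?_ hz0
      intro h
      exact hz0 (hinj hz (by simp) (h.trans h0.symm))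
  obtain ⟨F, hFd, hF0, hF⟩ := exists_log_ball hud hune hu0
  refine ⟨fun z => exp (-F z / 2), ?_, ?_, fun z _ => Complex.exp_ne_zero _, fun z hz => ?_⟩
  · exact (hFd.neg.div_const 2).cexp
  · simp [hF0]
  · have h2 : exp (-F z / 2) ^ 2 = exp (-F z) := by
      rw [← Complex.exp_nat_mul]; congr 1; push_cast; ring
    simp only
    rw [h2, Complex.exp_neg, div_inv_eq_mul, ← hF z hz]
    by_cases hz0 : z = 0
    · rw [hz0, h0]; simp
    · rw [huz z hz0]; field_simp

end Pool.Agent.Helper94.Supp
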