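import Pool.Agent.Helper94.Supp.Defs
import Pool.Agent.Helper94.Supp.Root
import Pool.Agent.Helper94.Supp.Omit

open MeasureTheory Complex Metric Set Filter Topology
open Pool.Agent.Helper94.Area

namespace Pool.Agent.Helper94.Supp

noncomputable def ker (θ : ℝ) : ℂ := Bk (tc hf) θ * (-(1/2) * hf (zt θ) ^ 3 / zt θ)

theorem ker_continuous : Continuous ker := by
  unfold ker
  have h1 := continuous_Bk wt_summable
  have h2 : Continuous (fun θ : ℝ => hf (zt θ)) :=
    hf_diff.continuousOn.comp_continuous continuous_zt zt_mem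
  refine h1.mul (Continuous.div (continuous_const.mul (h2.pow 3)) continuous_zt zt_ne)

/-- a point of the disk -/
def mkD (z : ℂ) (hz : z ∈ ball (0:ℂ) 1) : Disk := (⟨z, hz⟩ : Metric.ball (0:ℂ) 1)

theorem mkD_val (z : ℂ) (hz : z ∈ ball (0:ℂ) 1) : (mkD z hz).1 = z := rfl

theorem disk_val_mem (z : Disk) : z.1 ∈ ball (0:ℂ) 1 := z.2

theorem disk_ext {a b : Disk} (h : a.1 = b.1) : a = b := Subtype.ext h

noncomputable def ztD (θ : ℝ) : Disk := mkD (zt θ) (zt_mem θ)

theorem ztD_continuous : Continuous ztD := Continuous.subtype_mk continuous_zt _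

theorem disk_val_continuous : Continuous (fun z : Disk => z.1) := continuous_subtype_val

noncomputable def Lfull : C(Disk, ℂ) →ₗ[ℂ] ℂ where
  toFun φ := (2 * Real.pi : ℂ)⁻¹ * ∫ θ in (-Real.pi)..Real.pi, ker θ * φ (ztD θ)
  map_add' φ ψ := by
    rw [← mul_add, ← intervalIntegral.integral_add]
    · congr 1
      refine intervalIntegral.integral_congr (fun θ _ => ?_)
      rw [ContinuousMap.add_apply]; ring
    · exact (ker_continuous.mul (φ.continuous.comp ztD_continuous)).intervalIntegrable _ _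
    · exact (ker_continuous.mul (ψ.continuous.comp ztD_continuous)).intervalIntegrable _ _
  map_smul' c φ := by
    have : ∀ θ : ℝ, ker θ * (c • φ) (ztD θ) = c * (ker θ * φ (ztD θ)) := by
      intro θ
      rw [ContinuousMap.smul_apply, smul_eq_mul]; ring
    simp_rw [this]
    rw [intervalIntegral.integral_const_mul, RingHom.id_apply, smul_eq_mul]
    ring

theorem Lfull_continuous : Continuous Lfull := by
  apply continuous_of_continuousAt_zero
  rw [ContinuousAt, map_zero, Metric.tendsto_nhds]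
  intro ε hε
  obtain ⟨C, hC⟩ : ∃ C, ∀ θ ∈ uIcc (-Real.pi) Real.pi, ‖ker θ‖ ≤ C :=
    isCompact_uIcc.exists_bound_of_continuousOn ker_continuous.continuousOn
  have hC0 : 0 ≤ C := (norm_nonneg _).trans (hC 0 (by
    rw [uIcc_of_le (by linarith [Real.pi_pos])]; constructor <;> linarith [Real.pi_pos]))
  set η : ℝ := ε / (2 * (C + 1)) with hη
  have hη0 : 0 < η := by positivity
  have hK : IsCompact (ztD '' uIcc (-Real.pi) Real.pi) :=
    isCompact_uIcc.image ztD_continuous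
  have hopen := ContinuousMap.isOpen_setOfPred_mapsTo hK (isOpen_ball (x := (0:ℂ)) (ε := η))
  have hmem : (0 : C(Disk, ℂ)) ∈ {f : C(Disk, ℂ) | MapsTo f (ztD '' uIcc (-Real.pi) Real.pi)
      (ball (0:ℂ) η)} := by
    intro x _
    simpa using hη0
  filter_upwards [hopen.mem_nhds hmem] with φ hφ
  rw [dist_zero_right]
  have h1 : ‖∫ θ in (-Real.pi)..Real.pi, ker θ * φ (ztD θ)‖ ≤ (C * η) * |Real.pi - (-Real.pi)| := by
    refine intervalIntegral.norm_integral_le_of_norm_le_const (fun θ hθ => ?_)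
    have hθ' : θ ∈ uIcc (-Real.pi) Real.pi := uIoc_subset_uIcc hθ
    have h2 := hφ (mem_image_of_mem ztD hθ')
    rw [mem_ball_zero_iff] at h2
    rw [norm_mul]
    exact mul_le_mul (hC θ hθ') h2.le (norm_nonneg _) hC0
  have h3 : ‖(2 * Real.pi : ℂ)⁻¹‖ = (2 * Real.pi)⁻¹ := by
    rw [norm_inv, norm_mul, Complex.norm_real, Real.norm_eq_abs, abs_of_pos Real.pi_pos]; simp
  change ‖(2 * Real.pi : ℂ)⁻¹ * ∫ θ in (-Real.pi)..Real.pi, ker θ * φ (ztD θ)‖ < ε
  rw [norm_mul, h3]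
  have hpi := Real.pi_pos
  have h4 : |Real.pi - (-Real.pi)| = 2 * Real.pi := by
    rw [abs_of_pos (by linarith)]; ring
  rw [h4] at h1
  calc (2 * Real.pi)⁻¹ * ‖∫ θ in (-Real.pi)..Real.pi, ker θ * φ (ztD θ)‖
      ≤ (2 * Real.pi)⁻¹ * ((C * η) * (2 * Real.pi)) := by gcongr
    _ = C * η := by field_simp
    _ ≤ (C + 1) * η := by gcongr; linarith
    _ = ε / 2 := by rw [hη]; field_simp
    _ < ε := by linarith

noncomputable def inc : HD →ₗ[ℂ] C(Disk, ℂ) where
  toFun φ := φ.1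
  map_add' _ _ := rfl
  map_smul' _ _ := rfl

noncomputable def LL : HD →L[ℂ] ℂ where
  toLinearMap := Lfull.comp inc
  cont := Lfull_continuous.comp continuous_subtype_val

theorem LL_apply (φ : HD) : LL φ = (2 * Real.pi : ℂ)⁻¹ * ∫ θ in (-Real.pi)..Real.pi,
    ker θ * φ.fn (ztD θ) := rfl

theorem LL_eq {φ : HD} {h : ℂ → ℂ} (hne : ∀ z ∈ ball (0:ℂ) 1, h z ≠ 0)
    (hφ : ∀ z : Disk, φ.fn z = z.1 / h z.1 ^ 2) :
    LL φ = Lam (tc hf) (fun z => -(1/2) * hf z ^ 3 / h z ^ 2) := by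
  rw [LL_apply, Lam]
  congr 1
  refine intervalIntegral.integral_congr (fun θ _ => ?_)
  have h1 := hφ (ztD θ)
  have h2 : (ztD θ).1 = zt θ := rfl
  rw [h2] at h1
  simp only [h1, ker]
  have h3 := zt_ne θ
  have h4 := hne _ (zt_mem θ)
  field_simp

/-- the restriction of a function analytic on the disk, as an element of `HD` -/
noncomputable def toHD (G : ℂ → ℂ) (hG : DifferentiableOn ℂ G (ball 0 1)) : HD :=
  (⟨⟨fun z => G z.1, hG.continuousOn.comp_continuous disk_val_continuous (fun z => z.2)⟩,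
    G, hG, fun _ => rfl⟩ : analyticSubmodule)

theorem toHD_apply {G : ℂ → ℂ} (hG : DifferentiableOn ℂ G (ball 0 1)) (z : Disk) :
    (toHD G hG).fn z = G z.1 := rfl

noncomputable def fHD : HD := toHD ff ff_diff

theorem toHD_mem {G : ℂ → ℂ} (hG : DifferentiableOn ℂ G (ball 0 1)) (hinj : InjOn G (ball 0 1))
    (h0 : G 0 = 0) (h1 : deriv G 0 = 1) : toHD G hG ∈ classS := by
  refine ⟨fun a b hab => ?_, G, hG, fun z => rfl, h0, h1⟩
  have : G a.1 = G b.1 := hab
  exact disk_ext (hinj a.2 b.2 this)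

theorem fHD_mem : fHD ∈ classS := toHD_mem ff_diff ff_inj ff_zero ff_deriv

theorem key_ineq {g : HD} (hg : g ∈ classS) :
    ∃ h : ℂ → ℂ, (∀ z : Disk, g.fn z = z.1 / h z.1 ^ 2) ∧ (∀ z ∈ ball (0:ℂ) 1, h z ≠ 0) ∧
    (LL g).re ≤ (LL fHD).re
        - (1/4) * ∑' i : ℕ, (2 * (i:ℝ) + 1) * ‖tc h (i + 1) - tc hf (i + 1)‖ ^ 2 := by
  obtain ⟨hinj, G, hG, hGg, hG0, hG1⟩ := hg
  have hGinj : InjOn G (ball 0 1) := by
    intro a ha b hb hab
    have h1 : g.fn (mkD a ha) = g.fn (mkD b hb) := by rw [hGg, hGg]; exact hab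
    have h2 := hinj h1
    have h3 : (mkD a ha).1 = (mkD b hb).1 := by rw [h2]
    exact h3
  obtain ⟨h, hh, hh0, hne, hGh⟩ := exists_root hG hGinj hG0 hG1
  have hgh : ∀ z : Disk, g.fn z = z.1 / h z.1 ^ 2 := fun z => by rw [hGg z, hGh z.1 z.2]
  refine ⟨h, hgh, hne, ?_⟩
  have hinj' : InjOn (fun z => z / h z ^ 2) (ball 0 1) := by
    intro a ha b hb hab
    simp only at hab
    rw [← hGh a ha, ← hGh b hb] at hab
    exact hGinj ha hb hab
  have harea := area_sqrt hh hne hh0 hinj'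
  have hmain := main_ineq hf_diff hf_zero hf_norm_sum wt_summable wt_tail hh hh0 hne harea
  rw [LL_eq hne hgh]
  have hf1 : LL fHD = Lam (tc hf) (fun z => -(1/2) * hf z) := by
    rw [LL_eq (φ := fHD) (h := hf) (fun z hz => hf_ne hz) (fun z => rfl)]
    refine Lam_congr (fun θ => ?_)
    have := hf_ne (zt_mem θ)
    field_simp
  rw [hf1]
  exact hmain

theorem id_mem : toHD (fun z => z) differentiableOn_id ∈ classS :=
  toHD_mem _ (fun a _ b _ hab => hab) rfl (by simp)

theorem fHD_isSupportPoint : IsSupportPoint fHD := by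
  refine ⟨fHD_mem, LL, ?_, ?_⟩
  · refine ⟨toHD (fun z => z) differentiableOn_id, id_mem, fHD, fHD_mem, ?_⟩
    intro hEq
    -- the identity corresponds to h = 1
    have harea : ∀ N, ∑ j ∈ Finset.range N, (2 * (j:ℝ) + 1) * ‖tc (fun _ => (1:ℂ)) (j + 1)‖ ^ 2 ≤ 1 := by
      intro N
      refine area_sqrt (differentiableOn_const _) (fun _ _ => one_ne_zero) rfl ?_ N
      intro a _ b _ hab
      simpa using hab
    have hmain := main_ineq hf_diff hf_zero hf_norm_sum wt_summable wt_tail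
      (h := fun _ => (1:ℂ)) (differentiableOn_const _) rfl (fun _ _ => one_ne_zero) harea
    have e1 : LL (toHD (fun z => z) differentiableOn_id)
        = Lam (tc hf) (fun z => -(1/2) * hf z ^ 3 / (1:ℂ) ^ 2) :=
      LL_eq (h := fun _ => (1:ℂ)) (fun _ _ => one_ne_zero) (fun z => by
        rw [toHD_apply]; simp)
    have hf1 : LL fHD = Lam (tc hf) (fun z => -(1/2) * hf z) := by
      rw [LL_eq (φ := fHD) (h := hf) (fun z hz => hf_ne hz) (fun z => rfl)]
      refine Lam_congr (fun θ => ?_)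
      have := hf_ne (zt_mem θ)
      field_simp
    rw [← e1, ← hf1, hEq] at hmain
    have htc : ∀ n, tc (fun _ : ℂ => (1:ℂ)) (n + 1) = 0 := by
      intro n
      have h1 : ∀ z ∈ ball (0:ℂ) 1, HasSum (fun n : ℕ => (if n = 0 then (1:ℂ) else 0) * z ^ n) 1 := by
        intro z hz
        have := hasSum_ite_eq (0:ℕ) (1:ℂ)
        refine hs_congr (fun n => ?_) this
        by_cases hn : n = 0
        · simp [hn]
        · simp [hn]
      have h2 := coeff_unique (fun z hz => tc_hasSum (differentiableOn_const (1:ℂ)) hz) h1 (n + 1)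
      rw [h2]; simp
    have hsum : ∑' i : ℕ, (2 * (i:ℝ) + 1) * ‖tc (fun _ : ℂ => (1:ℂ)) (i + 1) - tc hf (i + 1)‖ ^ 2
        = 1 := by
      have : ∀ i : ℕ, (2 * (i:ℝ) + 1) * ‖tc (fun _ : ℂ => (1:ℂ)) (i + 1) - tc hf (i + 1)‖ ^ 2
          = (2 * (i:ℝ) + 1) * ‖tc hf (i + 1)‖ ^ 2 := by
        intro i; rw [htc, zero_sub, norm_neg]
      simp_rw [this]
      exact hf_norm_sum.tsum_eq
    rw [hsum] at hmain
    linarith
  · intro g hg
    obtain ⟨h, _, _, hle⟩ := key_ineq hg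
    have : 0 ≤ ∑' i : ℕ, (2 * (i:ℝ) + 1) * ‖tc h (i + 1) - tc hf (i + 1)‖ ^ 2 :=
      tsum_nonneg (fun i => by positivity)
    linarith

theorem wArc_omitted : OmittedArc fHD wArc where
  analytic := wArc_analytic
  regular := fun _ ht => wArc_deriv_ne ht
  injective := wArc_injOn
  start_ne := wArc_ne le_rfl
  to_infinity := wArc_tendsto
  image_eq := by
    ext w
    constructor
    · rintro ⟨t, ht, rfl⟩ ⟨z, hz⟩
      exact arc_not_mem ht z.2 hz
    · intro hw
      obtain ⟨t, ht, hw'⟩ := mem_or_arc (w := w) (fun z hz h => hw ⟨mkD z hz, h⟩)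
      exact ⟨t, ht, hw'⟩

end Pool.Agent.Helper94.Supp
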